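import Pool.Agent.Lib.SE.Hyp.Spec2

/-!
# PROJECT SE-S, module hR: symplectic rank one nilpotents
-/

set_option autoImplicit false

open Module

noncomputable section

namespace SEH

open HC HC.E HC.SE SEB

namespace hR_aux

variable {V : Type} [AddCommGroup V] [Module ℂ V] (ω : V →ₗ[ℂ] V →ₗ[ℂ] ℂ)

/-- `a ⊗ ω(b, ·) + b ⊗ ω(a, ·)` -/
def ss (a b : V) : Module.End ℂ V := (ω b).smulRight a + (ω a).smulRight b

theorem ss_apply (a b v : V) : ss ω a b v = ω b v • a + ω a v • b := rfl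

theorem ss_comm (a b : V) : ss ω a b = ss ω b a := by
  unfold ss
  exact add_comm _ _

theorem ss_add (a a' b : V) : ss ω (a + a') b = ss ω a b + ss ω a' b := by
  ext v
  simp only [ss_apply, LinearMap.add_apply, map_add]
  module

theorem ss_smul (c : ℂ) (a b : V) : ss ω (c • a) b = c • ss ω a b := by
  ext v
  simp only [ss_apply, LinearMap.smul_apply, map_smul, smul_eq_mul]
  module

theorem ss_zero (b : V) : ss ω 0 b = 0 := by
  have := ss_smul ω 0 0 b
  rwa [zero_smul, zero_smul] at this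

theorem ss_add' (a b b' : V) : ss ω a (b + b') = ss ω a b + ss ω a b' := by
  rw [ss_comm, ss_add, ss_comm ω b, ss_comm ω b']

theorem ss_smul' (c : ℂ) (a b : V) : ss ω a (c • b) = c • ss ω a b := by
  rw [ss_comm, ss_smul, ss_comm]

variable {ω}

theorem anti (h : Smp ω) (u v : V) : ω u v = -ω v u := by
  have h1 := h.1 (u + v)
  rw [map_add, map_add, LinearMap.add_apply, LinearMap.add_apply, h.1 u, h.1 v] at h1
  linear_combination h1

/-- the bracket with a skew operator -/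
theorem br {X : Module.End ℂ V} (hX : Skw ω X) (a b : V) :
    X * ss ω a b - ss ω a b * X = ss ω (X a) b + ss ω a (X b) := by
  ext v
  have e1 : ω (X a) v = -ω a (X v) := by linear_combination hX a v
  have e2 : ω (X b) v = -ω b (X v) := by linear_combination hX b v
  rw [LinearMap.sub_apply, LinearMap.add_apply, Module.End.mul_apply, Module.End.mul_apply]
  simp only [ss_apply, map_add, map_smul]
  rw [e1, e2]
  module

theorem start (h : Smp ω) {g : Submodule ℂ (Module.End ℂ V)} {φ : Module.Dual ℂ V} {x y : V}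
    (hs : Skw ω (φ.smulRight x)) (hx : x ≠ 0) (hy : φ y ≠ 0) (hg : φ.smulRight x ∈ g) :
    ss ω x x ∈ g ∧ ω x y ≠ 0 := by
  obtain ⟨w0, hw0⟩ : ∃ w, ω x w ≠ 0 := by
    by_contra hc
    push Not at hc
    exact hx (h.2 x hc)
  have key : ∀ v, φ v = φ w0 / ω x w0 * ω x v := by
    intro v
    have h1 := hs v w0
    rw [LinearMap.smulRight_apply, LinearMap.smulRight_apply, map_smul, LinearMap.smul_apply,
      map_smul, smul_eq_mul, smul_eq_mul, anti h v x] at h1
    field_simp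
    linear_combination h1
  have hc : φ w0 / ω x w0 ≠ 0 := by
    intro h0
    apply hy
    rw [key y, h0, zero_mul]
  refine ⟨?_, ?_⟩
  · have e : ss ω x x = (2 / (φ w0 / ω x w0)) • (φ.smulRight x : Module.End ℂ V) := by
      ext v
      rw [ss_apply, LinearMap.smul_apply, LinearMap.smulRight_apply, key v, smul_smul]
      have : 2 / (φ w0 / ω x w0) * (φ w0 / ω x w0 * ω x v) = 2 * ω x v := by
        rw [← mul_assoc, div_mul_cancel₀ _ hc]
      rw [this]
      module
    rw [e]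
    exact g.smul_mem _ hg
  · intro h0
    apply hy
    rw [key y, h0, mul_zero]

section main

variable {g D : Submodule ℂ (Module.End ℂ V)} {x y : V}

theorem hxy (h1 : ω x y = 1) (hsk : ∀ X ∈ g, Skw ω X) (hD : ∀ X ∈ g, ∀ Y ∈ g, X * Y - Y * X ∈ D)
    (hx : ss ω x x ∈ g) (hy : ss ω y y ∈ g) : ss ω x y ∈ D := by
  have h2 := hD _ hx _ hy
  rw [br (hsk _ hx)] at h2
  have e1 : ss ω x x y = (2 : ℂ) • x := by
    rw [ss_apply, h1]
    module
  rw [e1, ss_smul, ss_smul'] at h2
  rw [ss_comm ω y x] at h2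
  have e2 : ss ω x y = (4 : ℂ)⁻¹ • ((2 : ℂ) • ss ω x y + (2 : ℂ) • ss ω x y) := by module
  rw [e2]
  exact D.smul_mem _ h2

/-- from `x` to `y` -/
theorem toy (hω : Smp ω) (h1 : ω x y = 1) (hsk : ∀ X ∈ g, Skw ω X)
    (hD : ∀ X ∈ g, ∀ Y ∈ g, X * Y - Y * X ∈ D)
    (hy : ss ω y y ∈ g) (hxy : ss ω x y ∈ D) {v : V} (hv : ss ω v x ∈ g) : ss ω v y ∈ D := by
  have h2 := hD _ hy _ hv
  rw [br (hsk _ hy)] at h2
  have e1 : ss ω y y v = (2 * ω y v) • y := by
    rw [ss_apply]
    module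
  have e2 : ss ω y y x = (-2 : ℂ) • y := by
    rw [ss_apply, anti hω y x, h1]
    module
  rw [e1, e2, ss_smul, ss_smul', ss_comm ω y x] at h2
  have e3 : ss ω v y = (2 : ℂ)⁻¹ • ((2 * ω y v) • ss ω x y -
      ((2 * ω y v) • ss ω x y + (-2 : ℂ) • ss ω v y)) := by module
  rw [e3]
  exact D.smul_mem _ (D.sub_mem (D.smul_mem _ hxy) h2)

/-- from `y` to `x` -/
theorem tox (h1 : ω x y = 1) (hsk : ∀ X ∈ g, Skw ω X)
    (hD : ∀ X ∈ g, ∀ Y ∈ g, X * Y - Y * X ∈ D)
    (hx : ss ω x x ∈ g) (hxy : ss ω x y ∈ D) {v : V} (hv : ss ω v y ∈ g) : ss ω v x ∈ D := by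
  have h2 := hD _ hx _ hv
  rw [br (hsk _ hx)] at h2
  have e1 : ss ω x x v = (2 * ω x v) • x := by
    rw [ss_apply]
    module
  have e2 : ss ω x x y = (2 : ℂ) • x := by
    rw [ss_apply, h1]
    module
  rw [e1, e2, ss_smul, ss_smul'] at h2
  have e3 : ss ω v x = (2 : ℂ)⁻¹ • (((2 * ω x v) • ss ω x y + (2 : ℂ) • ss ω v x) -
      (2 * ω x v) • ss ω x y) := by module
  rw [e3]
  exact D.smul_mem _ (D.sub_mem h2 (D.smul_mem _ hxy))

/-- all -/
theorem tou (h1 : ω x y = 1) (hsk : ∀ X ∈ g, Skw ω X)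
    (hD : ∀ X ∈ g, ∀ Y ∈ g, X * Y - Y * X ∈ D) (hxy : ss ω x y ∈ D) {u v : V}
    (hv : ss ω v x ∈ g) (hu : ss ω u y ∈ g) (hv' : ss ω v y ∈ D) (hu' : ss ω u x ∈ D) :
    ss ω u v ∈ D := by
  have h2 := hD _ hv _ hu
  rw [br (hsk _ hv)] at h2
  have e1 : ss ω v x u = ω x u • v + ω v u • x := ss_apply ω v x u
  have e2 : ss ω v x y = v + ω v y • x := by rw [ss_apply, h1, one_smul]
  rw [e1, e2, ss_add, ss_add', ss_smul, ss_smul, ss_smul'] at h2
  have e3 : ss ω u v = (ω x u • ss ω v y + ω v u • ss ω x y + (ss ω u v + ω v y • ss ω u x)) -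
      (ω x u • ss ω v y + ω v u • ss ω x y + ω v y • ss ω u x) := by module
  rw [e3]
  exact D.sub_mem h2 (D.add_mem (D.add_mem (D.smul_mem _ hv') (D.smul_mem _ hxy))
    (D.smul_mem _ hu'))

end main

variable (ω) in
/-- the subspace of the `v` with `s(v, x) ∈ g` -/
def UU (g : Submodule ℂ (Module.End ℂ V)) (x : V) : Submodule ℂ V where
  carrier := {v | ss ω v x ∈ g}
  add_mem' {a b} ha hb := by
    show ss ω (a + b) x ∈ g
    rw [ss_add]
    exact g.add_mem ha hb
  zero_mem' := by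
    show ss ω 0 x ∈ g
    rw [ss_zero]
    exact g.zero_mem
  smul_mem' c a ha := by
    show ss ω (c • a) x ∈ g
    rw [ss_smul]
    exact g.smul_mem _ ha

/-- `g` contains all `s(u, v)`, and they are in the span of the commutators -/
theorem all (hω : Smp ω) {g D : Submodule ℂ (Module.End ℂ V)} {x y : V} (h1 : ω x y = 1)
    (hsk : ∀ X ∈ g, Skw ω X) (hg : ∀ X ∈ g, ∀ Y ∈ g, X * Y - Y * X ∈ g)
    (hD : ∀ X ∈ g, ∀ Y ∈ g, X * Y - Y * X ∈ D) (hx : ss ω x x ∈ g) (hy : ss ω y y ∈ g)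
    (hirr : ∀ U : Submodule ℂ V, (∀ X ∈ g, ∀ u ∈ U, X u ∈ U) → U = ⊥ ∨ U = ⊤) (u v : V) :
    ss ω u v ∈ D := by
  have hx0 : x ≠ 0 := by
    rintro rfl
    rw [map_zero, LinearMap.zero_apply] at h1
    exact zero_ne_one h1
  have hxyg : ss ω x y ∈ g := hxy h1 hsk hg hx hy
  have hU : UU ω g x = ⊤ := by
    refine (hirr (UU ω g x) ?_).resolve_left ?_
    · intro X hX v hv
      have hv' : ss ω v x ∈ g := hv
      show ss ω (X v) x ∈ g
      have hXx : ss ω (X x) x ∈ g := by
        have h2 := hg X hX _ hx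
        rw [br (hsk X hX), ss_comm ω x (X x)] at h2
        have e : ss ω (X x) x = (2 : ℂ)⁻¹ • (ss ω (X x) x + ss ω (X x) x) := by module
        rw [e]
        exact g.smul_mem _ h2
      have h3 : ss ω v (X x) ∈ g :=
        tou h1 hsk hg hxyg (v := X x) (u := v) hXx (toy hω h1 hsk hg hy hxyg hv')
          (toy hω h1 hsk hg hy hxyg hXx) hv'
      have h4 := hg X hX _ hv'
      rw [br (hsk X hX)] at h4
      have e : ss ω (X v) x = (ss ω (X v) x + ss ω v (X x)) - ss ω v (X x) := by module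
      rw [e]
      exact g.sub_mem h4 h3
    · intro hbot
      have : x ∈ UU ω g x := hx
      rw [hbot, Submodule.mem_bot] at this
      exact hx0 this
  have hax : ∀ w, ss ω w x ∈ g := fun w => by
    have : w ∈ UU ω g x := by rw [hU]; exact Submodule.mem_top
    exact this
  have hay : ∀ w, ss ω w y ∈ g := fun w => toy hω h1 hsk hg hy hxyg (hax w)
  have hxyD : ss ω x y ∈ D := hxy h1 hsk hD hx hy
  exact tou h1 hsk hD hxyD (hax v) (hay u) (toy hω h1 hsk hD hy hxyD (hax v))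
    (tox h1 hsk hD hx hxyD (hay u))

/-- a skew operator is a combination of the `s(a, b)` -/
theorem comb [FiniteDimensional ℂ V] (hω : Smp ω) {D : Submodule ℂ (Module.End ℂ V)}
    (hD : ∀ a b, ss ω a b ∈ D) {Y : Module.End ℂ V} (hY : Skw ω Y) : Y ∈ D := by
  have hinj : Function.Injective ω := by
    rw [injective_iff_map_eq_zero]
    intro v hv
    exact hω.2 v fun w => by rw [hv, LinearMap.zero_apply]
  have hsurj : Function.Surjective ω := by
    have hd : finrank ℂ V = finrank ℂ (V →ₗ[ℂ] ℂ) := (Subspace.dual_finrank_eq).symm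
    exact (LinearMap.injective_iff_surjective_of_finrank_eq_finrank hd).1 hinj
  let b := Module.finBasis ℂ V
  choose e he using fun i => hsurj (b.coord i)
  have h1 : ∀ v, v = ∑ i, ω (e i) v • b i := by
    intro v
    conv_lhs => rw [← b.sum_repr v]
    refine Finset.sum_congr rfl fun i _ => ?_
    rw [he i, Basis.coord_apply]
  have h2 : ∀ w, ∑ i, ω (b i) w • e i = -w := by
    intro w
    have h3 : ∑ i, ω (b i) w • e i + w = 0 := by
      refine hω.2 _ fun u => ?_
      rw [map_add, map_sum, LinearMap.add_apply, LinearMap.sum_apply]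
      have h4 : ∑ i, (ω (ω (b i) w • e i)) u = ω u w := by
        conv_rhs => rw [h1 u, map_sum, LinearMap.sum_apply]
        refine Finset.sum_congr rfl fun i _ => ?_
        rw [map_smul, LinearMap.smul_apply, map_smul, LinearMap.smul_apply, smul_eq_mul,
          smul_eq_mul, mul_comm]
      rw [h4, anti hω w u]
      ring
    exact eq_neg_of_add_eq_zero_left h3
  have h3 : Y = (2 : ℂ)⁻¹ • ∑ i, ss ω (Y (b i)) (e i) := by
    ext v
    rw [LinearMap.smul_apply, LinearMap.sum_apply]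
    simp only [ss_apply]
    rw [Finset.sum_add_distrib]
    have h4 : ∑ i, ω (e i) v • Y (b i) = Y v := by
      conv_rhs => rw [h1 v, map_sum]
      exact Finset.sum_congr rfl fun i _ => (map_smul _ _ _).symm
    have h5 : ∑ i, ω (Y (b i)) v • e i = Y v := by
      have h6 : ∀ i, ω (Y (b i)) v • e i = -(ω (b i) (Y v) • e i) := by
        intro i
        have : ω (Y (b i)) v = -ω (b i) (Y v) := by linear_combination hY (b i) v
        rw [this, neg_smul]
      rw [Finset.sum_congr rfl fun i _ => h6 i, Finset.sum_neg_distrib, h2, neg_neg]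
    rw [h4, h5]
    module
  rw [h3]
  exact D.smul_mem _ (D.sum_mem fun i _ => hD _ _)

end hR_aux

open hR_aux in
theorem thR : S_hR := by
  intro V _ _ _ g ω x y φ ψ hω hsk hg hφ hψ hgx hgy hirr Y hY
  have hx0 : x ≠ 0 := by
    rintro rfl
    exact hψ (map_zero _)
  have hy0 : y ≠ 0 := by
    rintro rfl
    exact hφ (map_zero _)
  obtain ⟨hx, hxy⟩ := start hω (hsk _ hgx) hx0 hφ hgx
  obtain ⟨hy, -⟩ := start hω (hsk _ hgy) hy0 hψ hgy
  have h1 : ω x ((ω x y)⁻¹ • y) = 1 := by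
    rw [map_smul, smul_eq_mul, inv_mul_cancel₀ hxy]
  have hy' : ss ω ((ω x y)⁻¹ • y) ((ω x y)⁻¹ • y) ∈ g := by
    rw [ss_smul, ss_smul']
    exact g.smul_mem _ (g.smul_mem _ hy)
  refine comb hω (fun a b => ?_) hY
  refine all hω h1 hsk hg (fun A hA B hB => ?_) hx hy' hirr a b
  exact Submodule.subset_span (show A * B - B * A ∈
    {Y | ∃ A ∈ g, ∃ B ∈ g, Y = A * B - B * A} from ⟨A, hA, B, hB, rfl⟩)

end SEH
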