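import Pool.Agent.Lib.SE.Hyp.Main
import Pool.Agent.Lib.SE.S.Defs

/-!
# PROJECT SE-S: very general hyperelliptic curves, in terms of `SES.SpB` (helper64)
-/

set_option autoImplicit false

open Module

noncomputable section

namespace SEH

open HC HC.E HC.SE SEB

/-- The meagre set of the hyperelliptic curves of odd degree `r + 1`. -/
def MMh (r : ℕ) : Set (Fin (r + 1) → ℂ) :=
  {s : Fin (r + 1) → ℂ | Function.Injective s ∧
    ¬ ∀ T : AV, Nonempty (New T 2 s fun _ => 1) → ∀ E, SES.IsRf T E → SES.SpB E}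

theorem z_neg {T : AV} {r : ℕ} {s : Fin (r + 1) → ℂ} (N : New T 2 s fun _ => 1) : N.Z = -1 := by
  have h := N.cyc
  rw [Polynomial.cyclotomic_two, map_add, Polynomial.aeval_X, map_one] at h
  exact eq_neg_of_add_eq_zero_left h

/-- Very general hyperelliptic Jacobians have Hodge Lie algebra `sp`. -/
theorem thMMh (r : ℕ) (hr : 2 ≤ r) (hev : Even r) : IsMeagre (MMh r) := by
  refine (thHyp r hr hev).mono ?_
  rintro s ⟨hs, hno⟩
  refine ⟨hs, fun hall => hno fun T hN E hE => ?_⟩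
  obtain ⟨N⟩ := hN
  have hpol : IsPol T N.Z E := by
    refine ⟨hE.1, hE.2.1, hE.2.2.1, hE.2.2.2, fun u v => ?_⟩
    rw [z_neg N]
    simp
  intro h hh X hX
  exact hall T N E hpol h ⟨hh.rat, hh.sk, hh.lie, hh.J⟩ X hX

/-- Outside `MMh r` the Jacobian of `y ^ 2 = ∏ (x - s_j)` has Hodge Lie algebra `sp`. -/
theorem spB_of_notMem {r : ℕ} {s : Fin (r + 1) → ℂ} (hs : Function.Injective s) (h : s ∉ MMh r)
    {T : AV} (N : New T 2 s fun _ => 1) {E : T.V →ₗ[ℝ] T.V →ₗ[ℝ] ℝ} (hE : SES.IsRf T E) :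
    SES.SpB E := by
  by_contra h1
  exact h ⟨hs, fun h2 => h1 (h2 T ⟨N⟩ E hE)⟩

end SEH
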