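import Pool.Agent.Lib.SE.Hyp.Spec2
import Pool.Agent.Lib.SE.Big.Asm7

/-!
# PROJECT SE-S: very general hyperelliptic curves, assembly (helper64)
-/

set_option autoImplicit false

open Module MeasureTheory

noncomputable section

namespace SEH

open HC HC.E HC.SE SEB

/-- The modules. -/
structure ModsH : Prop where
  Sg : S_Sg
  Kap : S_cKap
  N : SEB.S_cN
  AI : SEB.S_cAI
  Ba : S_hBa
  Loop : S_cLoop
  Hod : S_hHod
  EB : S_hEB
  Tr : S_hTr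
  Pm : SEB.S_cPm
  So : SEB.S_cSo

/-- Very general branch points with increasing real parts. -/
def HypI : Prop :=
  ∀ r : ℕ, 2 ≤ r → Even r → IsMeagre {s : Fin (r + 1) → ℂ | Inc s ∧
    ¬ ∀ (T : AV) (N : New T 2 s fun _ => 1) (E : T.V →ₗ[ℝ] T.V →ₗ[ℝ] ℝ), IsPol T N.Z E → SpB E}

/-- VERY GENERAL HYPERELLIPTIC CURVES: for all complex `f` of odd degree `r + 1 ≥ 3` outside a meagre set the
Hodge Lie algebra of the Jacobian of `y ^ 2 = f(x)` is `sp(E)`. -/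
def HypC : Prop :=
  ∀ r : ℕ, 2 ≤ r → Even r → IsMeagre {s : Fin (r + 1) → ℂ | Function.Injective s ∧
    ¬ ∀ (T : AV) (N : New T 2 s fun _ => 1) (E : T.V →ₗ[ℝ] T.V →ₗ[ℝ] ℝ), IsPol T N.Z E → SpB E}

theorem isCov_two {r : ℕ} (hr : Even r) {s : Fin (r + 1) → ℂ} (hs : Function.Injective s) :
    IsCov 2 s (fun _ => 1) := by
  refine ⟨le_rfl, hs, fun _ h => ?_, fun h => ?_, fun d _ h2 => Nat.dvd_one.1 (h2 0)⟩
  · have := Nat.le_of_dvd one_pos h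
    omega
  · rw [Finset.sum_const, Finset.card_univ, Fintype.card_fin, smul_eq_mul, mul_one] at h
    obtain ⟨a, ha⟩ := hr
    omega

theorem hypI (M : ModsH) : HypI := by
  intro r hr hev
  have hc₀ : ∀ s : Fin (r + 1) → ℂ, Inc s → IsCov 2 s (fun _ => 1) := fun s hs =>
    isCov_two hev (inc_injective hs)
  have hex : ∃ s : Fin (r + 1) → ℂ, Inc s := by
    refine ⟨fun j => ((j.val : ℕ) : ℂ), fun i j hij => ?_⟩
    simp only [Complex.natCast_re]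
    exact Nat.cast_lt.2 hij
  obtain ⟨s₀, hs₀⟩ := hex
  have hcop : Nat.Coprime 1 2 := Nat.coprime_one_left 2
  have hA₀ : Admc 2 (fun _ => 1) 1 s₀ := ⟨hs₀, hc₀ s₀ hs₀, by omega, hcop⟩
  have hK := M.Kap 2 r (fun _ => 1) 1 s₀ hA₀
  have hsum : sg 2 r (fun _ => 1) 1 + sg 2 r (fun _ => 1) 1 = r :=
    M.Sg 2 r s₀ (fun _ => 1) (hc₀ s₀ hs₀) 1 (by omega) hcop
  have hpos : 0 < sg 2 r (fun _ => 1) 1 := by omega
  refine (isMeagre_union (isMeagre_union (M.N r _ hK.2.1) (M.AI r _ hK.2.1 hK.2.2.1))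
    (M.Ba 2 r (fun _ => 1) 1 hpos hpos)).mono ?_
  rintro s ⟨hs, hno⟩
  by_contra hbad
  rw [Set.mem_union, Set.mem_union, not_or, not_or] at hbad
  obtain ⟨⟨hb0, hb1⟩, hb2⟩ := hbad
  refine hno fun T N E hE => ?_
  have hc := hc₀ s hs
  have hNj : Nj (mu 2 (fun _ => 1) 1) s := by
    by_contra h
    exact hb0 ⟨hs, h⟩
  have hAdm : Admc 2 (fun _ => 1) 1 s := ⟨hs, hc, by omega, hcop⟩
  have hAI : AInd (fun k : Fin r => Ic (mu 2 (fun _ => 1) 1) s k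
      fun x => (1 : Polynomial ℂ).eval x) := by
    by_contra h
    exact hb1 ⟨hs, h⟩
  obtain ⟨v, hv, hvP⟩ := M.Loop T 2 r s (fun _ => 1) hs hc N
  have hHds : Hds T r s v := M.Hod T r s hs hc hNj N v hvP
  obtain ⟨a, -, ha⟩ := hHds.1 1 (by
    rw [Polynomial.degree_one]
    exact_mod_cast hpos)
  have hAI2 : AInd (fun k => a (v k)) := by
    refine AInd.mul hAI fun k => ⟨kap 2 (fun _ => 1) 1 k, ?_, ?_, ?_⟩
    · exact ((M.Kap 2 r (fun _ => 1) 1 s hAdm).2.2.2 k).1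
    · exact ((M.Kap 2 r (fun _ => 1) 1 s hAdm).2.2.2 k).2
    · rw [ha k, Pc]
  have hdim : 2 * finrank ℂ T.V = r := by
    have := N.dim
    rw [Nat.totient_two, mul_one] at this
    exact this
  obtain ⟨hinj, hmat, hli, hsp⟩ := M.EB T r hdim v hv a hAI2
  obtain ⟨hND, hTr⟩ := M.Tr T r s hs hc hNj v hv hinj hmat hli hsp hHds
  refine hTr ?_ E hE.2.1 hE.2.2.2.1
  rintro ⟨g, hg, J, hJ, hJg⟩
  exact hb2 ⟨hAdm, hND, g, hg, J, hJ, hJg⟩

theorem hypC (M : ModsH) : HypC := by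
  intro r hr hev
  refine (M.So r (fun _ => {s : Fin (r + 1) → ℂ | Inc s ∧
    ¬ ∀ (T : AV) (N : New T 2 s fun _ => 1) (E : T.V →ₗ[ℝ] T.V →ₗ[ℝ] ℝ), IsPol T N.Z E → SpB E})
    fun _ => hypI M r hr hev).mono ?_
  rintro s ⟨hs, hno⟩ σ hσ
  refine ⟨hσ, fun hall => hno fun T N E hE => ?_⟩
  obtain ⟨N', hN'⟩ := (M.Pm T 2 r s (fun _ => 1) σ).2.2 N
  refine hall T N' E ?_
  rw [hN']
  exact hE

end SEH
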