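import Pool.Agent.Lib.SE.Hyp.Spec
/-!
# PROJECT SE, module IsBig, part 4: the constants (helper2)
-/

set_option autoImplicit false

open Module MeasureTheory Topology

noncomputable section

namespace SEH

open HC HC.E HC.SE SEB

namespace Kap_aux

theorem alg_of_pow {z : ℂ} {n : ℕ} (hn : 0 < n) (hz : z ^ n = 1) : IsAlgebraic ℚ z := by
  have h1 : IsIntegral ℚ z := IsIntegral.of_pow hn (by
    rw [hz]
    exact isIntegral_one)
  exact h1.isAlgebraic

theorem nn_mod {m r : ℕ} {b : Fin (r + 1) → ℕ} {u : ℕ} (hb : ∀ j, ¬ m ∣ b j) (hu : u.Coprime m)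
    (j : Fin (r + 1)) : 1 ≤ (u * b j) % m := by
  rcases Nat.eq_zero_or_pos ((u * b j) % m) with h | h
  · exact absurd (hu.symm.dvd_of_dvd_mul_left (Nat.dvd_of_mod_eq_zero h)) (hb j)
  · exact h

theorem nn_sub {m x u : ℕ} (hu : u < m) (h1 : 1 ≤ (u * x) % m) :
    ((m - u) * x) % m = m - (u * x) % m := by
  have hm : 0 < m := by omega
  have h2 : (u * x) % m < m := Nat.mod_lt _ hm
  have h3 : (m - u) * x + u * x = m * x := by
    rw [← Nat.add_mul, Nat.sub_add_cancel hu.le]
  have h4 : (((m - u) * x) % m + (u * x) % m) % m = 0 := by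
    rw [← Nat.add_mod, h3, Nat.mul_mod_right]
  have h5 : ((m - u) * x) % m < m := Nat.mod_lt _ hm
  have h6 : m ∣ ((m - u) * x) % m + (u * x) % m := Nat.dvd_of_mod_eq_zero h4
  obtain ⟨c, hc⟩ := h6
  have h7 : c = 1 := by
    have h8 : m * c < m * 2 := by omega
    have h9 : c < 2 := Nat.lt_of_mul_lt_mul_left h8
    have h10 : c ≠ 0 := by
      rintro rfl
      omega
    omega
  subst h7
  omega

end Kap_aux

open Kap_aux in
theorem tKap : S_Kap := by
  intro m r b u s hA
  obtain ⟨hs, hcov, hum, huc⟩ := hA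
  obtain ⟨hm3, -, hb, hsum, -⟩ := hcov
  have hm : 0 < m := by omega
  have hmR : (0 : ℝ) < m := by exact_mod_cast hm
  have h1 : ∀ j, 1 ≤ (u * b j) % m := nn_mod hb huc
  have h2 : ∀ j, (u * b j) % m < m := fun j => Nat.mod_lt _ hm
  have hnn : ∀ j, 1 ≤ nn m b u j ∧ nn m b u j < m := by
    intro j
    have := h1 j
    have := h2 j
    unfold nn
    omega
  refine ⟨fun j => ⟨(hnn j).1, (hnn j).2, ?_⟩, fun j => ?_, fun n hn => ?_, fun k => ?_⟩
  · have := h1 j
    have := h2 j
    unfold nn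
    rw [nn_sub hum (h1 j)]
  · obtain ⟨h3, h4⟩ := hnn j
    have h3' : (1 : ℝ) ≤ nn m b u j := by exact_mod_cast h3
    have h4' : (nn m b u j : ℝ) < m := by exact_mod_cast h4
    unfold mu
    refine ⟨by positivity, ?_⟩
    rw [div_lt_one hmR]
    exact h4'
  · -- the sum is not an integer
    have h5 : ((∑ j, nn m b u j : ℕ) : ℝ) = n * m := by
      unfold mu at hn
      rw [← Finset.sum_div, div_eq_iff hmR.ne'] at hn
      push_cast
      exact hn
    have h6 : ((∑ j, nn m b u j : ℕ) : ℤ) = n * m := by exact_mod_cast h5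
    have h7 : (m : ℤ) ∣ ((∑ j, nn m b u j : ℕ) : ℤ) := ⟨n, by rw [h6]; ring⟩
    have h8 : (m : ℤ) ∣ ((∑ j, (nn m b u j + u * b j) : ℕ) : ℤ) := by
      rw [Int.natCast_dvd_natCast]
      refine Finset.dvd_sum fun j _ => ?_
      have h9 := Nat.mod_add_div (u * b j) m
      have h10 := h2 j
      refine ⟨1 + (u * b j) / m, ?_⟩
      unfold nn
      rw [mul_add, mul_one]
      omega
    rw [Finset.sum_add_distrib, Nat.cast_add] at h8
    have h9 := (dvd_add_right h7).1 h8
    rw [Int.natCast_dvd_natCast, ← Finset.mul_sum] at h9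
    exact hsum (huc.symm.dvd_of_dvd_mul_left h9)
  · have hz : IsPrimitiveRoot (Complex.exp (2 * Real.pi * Complex.I / m)) m :=
      Complex.isPrimitiveRoot_exp m hm.ne'
    have he : Complex.exp (Real.pi * Complex.I / m) ^ (2 * m) = 1 := by
      rw [← Complex.exp_nat_mul]
      have h3 : ((2 * m : ℕ) : ℂ) * (Real.pi * Complex.I / m) = 2 * Real.pi * Complex.I := by
        have h4 : (m : ℂ) ≠ 0 := by exact_mod_cast hm.ne'
        push_cast
        field_simp
      rw [h3, Complex.exp_two_pi_mul_I]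
    have hne : ∀ j, Complex.exp (2 * Real.pi * Complex.I / m) ^ nn m b u j ≠ 1 := fun j =>
      hz.pow_ne_one_of_pos_of_lt (by have := (hnn j).1; omega) (hnn j).2
    have hne2 : ∀ j, 1 - (Complex.exp (2 * Real.pi * Complex.I / m) ^ nn m b u j)⁻¹ ≠ 0 := by
      intro j h
      have h3 := sub_eq_zero.1 h
      exact hne j (inv_eq_one.1 h3.symm)
    have halg : ∀ j, IsAlgebraic ℚ
        (1 - (Complex.exp (2 * Real.pi * Complex.I / m) ^ nn m b u j)⁻¹) := by
      intro j
      exact isAlgebraic_one.sub ((alg_of_pow hm hz.pow_eq_one).pow _).inv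
    unfold kap
    refine ⟨mul_ne_zero (mul_ne_zero (hne2 _) (hne2 _))
      (inv_ne_zero (pow_ne_zero _ (Complex.exp_ne_zero _))), ?_⟩
    exact ((halg _).mul (halg _)).mul ((alg_of_pow (by omega) he).pow _).inv

end SEH
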