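import Pool.Agent.Lib.SE.Hyp.Spec
import Pool.Agent.Lib.SE.Hyp.Sg
/-!
# PROJECT SE, module IsBig, part 5, module cDj: derivative of `J`, complex branch points
-/

set_option autoImplicit false

open Module MeasureTheory Topology

noncomputable section

namespace SEH

open HC HC.E HC.SE SEB

namespace cDj_aux

variable {m r : ℕ} {b : Fin (r + 1) → ℕ} {u : ℕ}

theorem adm_neg {s : Fin (r + 1) → ℂ} (h : Admc m b u s) : Admc m b (m - u) s := by
  obtain ⟨h1, h2, h3, h4⟩ := h
  have hm : 2 ≤ m := h2.1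
  have hu : u ≠ 0 := by
    intro h0
    rw [h0, Nat.coprime_zero_left] at h4
    omega
  refine ⟨h1, h2, by omega, ?_⟩
  exact (Nat.coprime_self_sub_left h3.le).2 h4

/-- the family of vectors -/
def FF (m : ℕ) {r : ℕ} (b : Fin (r + 1) → ℕ) (u : ℕ) (s : Fin (r + 1) → ℂ) :
    Fin (sg m r b u) ⊕ Fin (sg m r b (m - u)) → (Fin r → ℂ) :=
  Sum.elim (fun i => Pc m b u s (Polynomial.X ^ (i : ℕ)))
    (fun l => star (Pc m b (m - u) s (Polynomial.X ^ (l : ℕ))))

/-- the numbering -/
def ee (h : sg m r b u + sg m r b (m - u) = r) :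
    Fin (sg m r b u) ⊕ Fin (sg m r b (m - u)) ≃ Fin r :=
  finSumFinEquiv.trans (finCongr h)

/-- the matrix -/
def MM (h : sg m r b u + sg m r b (m - u) = r) (s : Fin (r + 1) → ℂ) :
    Matrix (Fin r) (Fin r) ℂ :=
  Matrix.of fun k j => FF m b u s ((ee h).symm j) k

theorem MM_mulVec (h : sg m r b u + sg m r b (m - u) = r) (s : Fin (r + 1) → ℂ)
    (v : Fin (sg m r b u) → ℂ) (w : Fin (sg m r b (m - u)) → ℂ) :
    (MM h s).mulVec (fun j => Sum.elim v w ((ee h).symm j)) =
      ∑ i, v i • Pc m b u s (Polynomial.X ^ (i : ℕ)) +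
        ∑ l, w l • star (Pc m b (m - u) s (Polynomial.X ^ (l : ℕ))) := by
  ext k
  rw [Matrix.mulVec, dotProduct]
  simp only [MM, Matrix.of_apply]
  rw [← (ee h).sum_comp]
  simp only [Equiv.symm_apply_apply, Fintype.sum_sum_type, FF, Sum.elim_inl, Sum.elim_inr,
    Pi.add_apply, Finset.sum_apply, Pi.smul_apply, smul_eq_mul]
  refine congrArg₂ (· + ·) ?_ ?_
  · exact Finset.sum_congr rfl fun i _ => mul_comm _ _
  · exact Finset.sum_congr rfl fun i _ => mul_comm _ _

/-- `Pc` as a linear map -/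
def PL (hPv : S_cPv) {s : Fin (r + 1) → ℂ} (hs : Admc m b u s) :
    Polynomial ℂ →ₗ[ℂ] (Fin r → ℂ) where
  toFun := Pc m b u s
  map_add' := (hPv m r b u s hs).1
  map_smul' c f := by
    rw [Polynomial.smul_eq_C_mul]
    exact (hPv m r b u s hs).2 c f

theorem pv_sum (hPv : S_cPv) {s : Fin (r + 1) → ℂ} (hs : Admc m b u s) (n : ℕ)
    (c : Fin n → ℂ) :
    Pc m b u s (∑ i : Fin n, Polynomial.C (c i) * Polynomial.X ^ (i : ℕ)) =
      ∑ i : Fin n, c i • Pc m b u s (Polynomial.X ^ (i : ℕ)) := by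
  have h1 : ∀ f, Pc m b u s f = PL hPv hs f := fun f => rfl
  simp only [h1]
  rw [map_sum]
  refine Finset.sum_congr rfl fun i _ => ?_
  rw [← Polynomial.smul_eq_C_mul, map_smul]

theorem poly_sum (f : Polynomial ℂ) (n : ℕ) (hf : f.degree < (n : WithBot ℕ)) :
    f = ∑ i : Fin n, Polynomial.C (f.coeff i) * Polynomial.X ^ (i : ℕ) := by
  rw [Polynomial.sum_fin (fun i a => Polynomial.C a * Polynomial.X ^ i) (by simp) hf,
    Polynomial.sum_C_mul_X_pow_eq]

theorem pv_eq (hPv : S_cPv) {s : Fin (r + 1) → ℂ} (hs : Admc m b u s) (n : ℕ)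
    (f : Polynomial ℂ) (hf : f.degree < (n : WithBot ℕ)) :
    Pc m b u s f = ∑ i : Fin n, f.coeff i • Pc m b u s (Polynomial.X ^ (i : ℕ)) := by
  conv_lhs => rw [poly_sum f n hf]
  exact pv_sum hPv hs n fun i => f.coeff i

theorem star_pv_eq (hPv : S_cPv) {s : Fin (r + 1) → ℂ} (hs : Admc m b u s) (n : ℕ)
    (f : Polynomial ℂ) (hf : f.degree < (n : WithBot ℕ)) :
    star (Pc m b u s f) =
      ∑ i : Fin n, star (f.coeff i) • star (Pc m b u s (Polynomial.X ^ (i : ℕ))) := by
  rw [pv_eq hPv hs n f hf, star_sum]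
  exact Finset.sum_congr rfl fun i _ => star_smul _ _

/-- `NDc` is the nonvanishing of the determinant -/
theorem nd_iff (hPv : S_cPv) (h : sg m r b u + sg m r b (m - u) = r) {s : Fin (r + 1) → ℂ}
    (hs : Admc m b u s) : NDc m b u s ↔ (MM h s).det ≠ 0 := by
  have hs' := adm_neg hs
  constructor
  · intro hND hdet
    obtain ⟨v, hv, hMv⟩ := Matrix.exists_mulVec_eq_zero_iff.2 hdet
    have hv2 : v = fun j => Sum.elim (fun i => v (ee h (Sum.inl i))) (fun l => v (ee h (Sum.inr l)))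
        ((ee h).symm j) := by
      funext j
      obtain ⟨x, rfl⟩ := (ee h).surjective j
      rw [Equiv.symm_apply_apply]
      cases x <;> rfl
    rw [hv2, MM_mulVec] at hMv
    set f : Polynomial ℂ := ∑ i : Fin (sg m r b u),
      Polynomial.C (v (ee h (Sum.inl i))) * Polynomial.X ^ (i : ℕ) with hf
    set g : Polynomial ℂ := ∑ l : Fin (sg m r b (m - u)),
      Polynomial.C (star (v (ee h (Sum.inr l)))) * Polynomial.X ^ (l : ℕ) with hg
    have hfd : f.degree < (sg m r b u : WithBot ℕ) := Polynomial.degree_sum_fin_lt _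
    have hgd : g.degree < (sg m r b (m - u) : WithBot ℕ) := Polynomial.degree_sum_fin_lt _
    have h1 : Pc m b u s f + star (Pc m b (m - u) s g) = 0 := by
      rw [← hMv, hf, hg, pv_sum hPv hs, pv_sum hPv hs', star_sum]
      refine congrArg₂ (· + ·) rfl (Finset.sum_congr rfl fun l _ => ?_)
      rw [star_smul, star_star]
    obtain ⟨hf0, hg0⟩ := hND f g hfd hgd h1
    apply hv
    funext j
    obtain ⟨x, rfl⟩ := (ee h).surjective j
    cases x with
    | inl i =>
      have h2 : f.coeff i = v (ee h (Sum.inl i)) := by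
        rw [hf, Polynomial.finsetSum_coeff, Finset.sum_eq_single i]
        · simp
        · intro i' _ hi'
          rw [Polynomial.coeff_C_mul_X_pow, if_neg]
          intro h3
          exact hi' (Fin.ext h3).symm
        · intro h3
          exact absurd (Finset.mem_univ i) h3
      rw [← h2, hf0]
      simp
    | inr l =>
      have h2 : g.coeff l = star (v (ee h (Sum.inr l))) := by
        rw [hg, Polynomial.finsetSum_coeff, Finset.sum_eq_single l]
        · simp
        · intro i' _ hi'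
          rw [Polynomial.coeff_C_mul_X_pow, if_neg]
          intro h3
          exact hi' (Fin.ext h3).symm
        · intro h3
          exact absurd (Finset.mem_univ l) h3
      rw [hg0, Polynomial.coeff_zero] at h2
      have h3 := congrArg star h2
      rw [star_star, star_zero] at h3
      rw [← h3]
      rfl
  · intro hdet f g hf hg hfg
    rw [pv_eq hPv hs _ f hf, star_pv_eq hPv hs' _ g hg, ← MM_mulVec h s
      (fun i => f.coeff i) (fun l => star (g.coeff l))] at hfg
    have h1 := Matrix.eq_zero_of_mulVec_eq_zero hdet hfg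
    have h2 : ∀ x, Sum.elim (fun i : Fin (sg m r b u) => f.coeff i)
        (fun l : Fin (sg m r b (m - u)) => star (g.coeff l)) x = 0 := fun x => by
      have h3 := congrFun h1 (ee h x)
      simpa using h3
    constructor
    · rw [poly_sum f _ hf]
      refine Finset.sum_eq_zero fun i _ => ?_
      have h3 := h2 (Sum.inl i)
      rw [Sum.elim_inl] at h3
      rw [h3, Polynomial.C_0, zero_mul]
    · rw [poly_sum g _ hg]
      refine Finset.sum_eq_zero fun l _ => ?_
      have h3 := h2 (Sum.inr l)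
      rw [Sum.elim_inr, star_eq_zero] at h3
      rw [h3, Polynomial.C_0, zero_mul]

/-- the diagonal matrix -/
def DD (h : sg m r b u + sg m r b (m - u) = r) : Matrix (Fin r) (Fin r) ℂ :=
  Matrix.diagonal fun j => Sum.elim (fun _ => Complex.I) (fun _ => -Complex.I) ((ee h).symm j)

/-- the matrix of `J` -/
def JM (h : sg m r b u + sg m r b (m - u) = r) (s : Fin (r + 1) → ℂ) :
    Matrix (Fin r) (Fin r) ℂ :=
  MM h s * DD h * (MM h s)⁻¹

theorem JM_isJ (hPv : S_cPv) (h : sg m r b u + sg m r b (m - u) = r) {s : Fin (r + 1) → ℂ}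
    (hs : Admc m b u s) (hdet : (MM h s).det ≠ 0) : IsJc m b u s (Matrix.toLin' (JM h s)) := by
  have hs' := adm_neg hs
  have hu : IsUnit (MM h s).det := isUnit_iff_ne_zero.2 hdet
  have key : ∀ v : Fin r → ℂ, Matrix.toLin' (JM h s) ((MM h s).mulVec v) =
      (MM h s).mulVec ((DD h).mulVec v) := fun v => by
    rw [Matrix.toLin'_apply, JM, ← Matrix.mulVec_mulVec, ← Matrix.mulVec_mulVec]
    rw [Matrix.mulVec_mulVec v, Matrix.nonsing_inv_mul _ hu, Matrix.one_mulVec]
  constructor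
  · intro f hf
    have h1 : Pc m b u s f = (MM h s).mulVec (fun j => Sum.elim
        (fun i : Fin (sg m r b u) => f.coeff i) (fun _ : Fin (sg m r b (m - u)) => (0 : ℂ))
          ((ee h).symm j)) := by
      rw [MM_mulVec, pv_eq hPv hs _ f hf]
      simp
    have h2 : (DD h).mulVec (fun j => Sum.elim
        (fun i : Fin (sg m r b u) => f.coeff i) (fun _ : Fin (sg m r b (m - u)) => (0 : ℂ))
          ((ee h).symm j)) = Complex.I • (fun j => Sum.elim
        (fun i : Fin (sg m r b u) => f.coeff i) (fun _ : Fin (sg m r b (m - u)) => (0 : ℂ))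
          ((ee h).symm j)) := by
      funext j
      rw [DD, Matrix.mulVec_diagonal, Pi.smul_apply, smul_eq_mul]
      rcases (ee h).symm j with i | l <;> simp
    rw [h1, key, h2, Matrix.mulVec_smul]
  · intro g hg
    have h1 : star (Pc m b (m - u) s g) = (MM h s).mulVec (fun j => Sum.elim
        (fun _ : Fin (sg m r b u) => (0 : ℂ))
        (fun l : Fin (sg m r b (m - u)) => star (g.coeff l)) ((ee h).symm j)) := by
      rw [MM_mulVec, star_pv_eq hPv hs' _ g hg]
      simp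
    have h2 : (DD h).mulVec (fun j => Sum.elim
        (fun _ : Fin (sg m r b u) => (0 : ℂ))
        (fun l : Fin (sg m r b (m - u)) => star (g.coeff l)) ((ee h).symm j)) =
        -Complex.I • (fun j => Sum.elim (fun _ : Fin (sg m r b u) => (0 : ℂ))
        (fun l : Fin (sg m r b (m - u)) => star (g.coeff l)) ((ee h).symm j)) := by
      funext j
      rw [DD, Matrix.mulVec_diagonal, Pi.smul_apply, smul_eq_mul]
      rcases (ee h).symm j with i | l <;> simp
    rw [h1, key, h2, Matrix.mulVec_smul]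

/-- `Th` as a linear map. -/
def ThL (m : ℕ) {r : ℕ} (b : Fin (r + 1) → ℕ) (u : ℕ) (s : Fin (r + 1) → ℂ)
    (a : Polynomial ℂ) : Polynomial ℂ →ₗ[ℂ] Polynomial ℂ where
  toFun := Thc (mu m b u) s a
  map_add' f g := by
    unfold Thc
    rw [Polynomial.derivative_add]
    ring
  map_smul' c f := by
    unfold Thc
    rw [Polynomial.smul_eq_C_mul, Polynomial.derivative_C_mul, RingHom.id_apply,
      Polynomial.smul_eq_C_mul]
    ring

theorem pv_th_eq (hPv : S_cPv) {s : Fin (r + 1) → ℂ} (hs : Admc m b u s) (a : Polynomial ℂ)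
    (n : ℕ) (f : Polynomial ℂ) (hf : f.degree < (n : WithBot ℕ)) :
    Pc m b u s (Thc (mu m b u) s a f) =
      ∑ i : Fin n, f.coeff i • Pc m b u s (Thc (mu m b u) s a (Polynomial.X ^ (i : ℕ))) := by
  have h1 : ∀ g, Pc m b u s (Thc (mu m b u) s a g) = (PL hPv hs ∘ₗ ThL m b u s a) g := fun g => rfl
  simp only [h1]
  conv_lhs => rw [poly_sum f n hf]
  rw [map_sum]
  refine Finset.sum_congr rfl fun i _ => ?_
  rw [← Polynomial.smul_eq_C_mul, map_smul]

/-- the derivatives of the family of vectors -/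
def FD (m : ℕ) {r : ℕ} (b : Fin (r + 1) → ℕ) (u : ℕ) (s : Fin (r + 1) → ℂ) (a : Polynomial ℂ) :
    Fin (sg m r b u) ⊕ Fin (sg m r b (m - u)) → (Fin r → ℂ) :=
  Sum.elim (fun i => Pc m b u s (Thc (mu m b u) s a (Polynomial.X ^ (i : ℕ))))
    (fun l => star (Pc m b (m - u) s (Thc (mu m b (m - u)) s a (Polynomial.X ^ (l : ℕ)))))

/-- the derivative of the matrix -/
def MD (h : sg m r b u + sg m r b (m - u) = r) (s : Fin (r + 1) → ℂ) (a : Polynomial ℂ) :
    Matrix (Fin r) (Fin r) ℂ :=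
  Matrix.of fun k j => FD m b u s a ((ee h).symm j) k

theorem MD_mulVec (h : sg m r b u + sg m r b (m - u) = r) (s : Fin (r + 1) → ℂ)
    (a : Polynomial ℂ) (v : Fin (sg m r b u) → ℂ) (w : Fin (sg m r b (m - u)) → ℂ) :
    (MD h s a).mulVec (fun j => Sum.elim v w ((ee h).symm j)) =
      ∑ i, v i • Pc m b u s (Thc (mu m b u) s a (Polynomial.X ^ (i : ℕ))) +
        ∑ l, w l • star (Pc m b (m - u) s (Thc (mu m b (m - u)) s a (Polynomial.X ^ (l : ℕ)))) := by
  ext k
  rw [Matrix.mulVec, dotProduct]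
  simp only [MD, Matrix.of_apply]
  rw [← (ee h).sum_comp]
  simp only [Equiv.symm_apply_apply, Fintype.sum_sum_type, FD, Sum.elim_inl, Sum.elim_inr,
    Pi.add_apply, Finset.sum_apply, Pi.smul_apply, smul_eq_mul]
  refine congrArg₂ (· + ·) ?_ ?_
  · exact Finset.sum_congr rfl fun i _ => mul_comm _ _
  · exact Finset.sum_congr rfl fun i _ => mul_comm _ _

/-- the derivative of the period vectors, real `ε` -/
theorem Pc_deriv (hKap : S_cKap) (hD : S_cD) {s : Fin (r + 1) → ℂ} (hs : Admc m b u s)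
    (a f : Polynomial ℂ) :
    HasDerivAt (fun ε : ℝ => Pc m b u (fun i => s i + (ε : ℂ) * a.eval (s i)) f)
      (Pc m b u s (Thc (mu m b u) s a f)) 0 := by
  refine hasDerivAt_pi.2 fun k => ?_
  have h1 := hD r (mu m b u) s (hKap m r b u s hs).2.1 hs.1 a f k
  have h1' : HasDerivAt (fun ε : ℂ => Ic (mu m b u) (fun j => s j + ε * a.eval (s j)) k
      fun x => f.eval x) (Ic (mu m b u) s k fun x => (Thc (mu m b u) s a f).eval x)
      (((0 : ℝ) : ℂ)) := by
    rw [Complex.ofReal_zero]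
    exact h1
  exact (h1'.comp_ofReal).const_mul (kap m b u k)

/-- the derivatives of the entries -/
theorem MM_deriv (hKap : S_cKap) (hD : S_cD) (h : sg m r b u + sg m r b (m - u) = r)
    {s : Fin (r + 1) → ℂ} (hs : Admc m b u s) (a : Polynomial ℂ) (k j : Fin r) :
    HasDerivAt (fun ε : ℝ => MM h (fun i => s i + (ε : ℂ) * a.eval (s i)) k j)
      (MD h s a k j) 0 := by
  have hs' := adm_neg hs
  simp only [MM, MD, Matrix.of_apply, FF, FD]
  cases (ee h).symm j with
  | inl i =>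
    simp only [Sum.elim_inl]
    exact (hasDerivAt_pi.1 (Pc_deriv hKap hD hs a (Polynomial.X ^ (i : ℕ)))) k
  | inr l =>
    simp only [Sum.elim_inr]
    exact ((hasDerivAt_pi.1 (Pc_deriv hKap hD hs' a (Polynomial.X ^ (l : ℕ)))) k).star

end cDj_aux

open cDj_aux in
/-- Module Dj: the derivative of `J`. -/
theorem tcDj : S_cPv → S_cKap → S_cD → S_cJx → S_cDj := by
  intro hPv hKap hD hJx m r b u U hU hUA g hg s hs J hJ a
  obtain ⟨hA, hN⟩ := hUA s hs
  have h : sg m r b u + sg m r b (m - u) = r := tSg m r _ b hA.2.1 u hA.2.2.1 hA.2.2.2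
  have hA' := adm_neg hA
  set σ : ℝ → Fin (r + 1) → ℂ := fun ε i => s i + (ε : ℂ) * a.eval (s i) with hσ
  have hσ0 : σ 0 = s := by
    funext i
    simp [hσ]
  have hσc : Continuous σ := by
    refine continuous_pi fun i => ?_
    exact continuous_const.add (Complex.continuous_ofReal.mul continuous_const)
  have hev : ∀ᶠ ε in 𝓝 (0 : ℝ), σ ε ∈ U := by
    refine hσc.continuousAt.eventually_mem ?_
    rw [hσ0]
    exact hU.mem_nhds hs
  have hder : ∀ k j, HasDerivAt (fun ε : ℝ => MM h (σ ε) k j) (MD h s a k j) 0 :=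
    fun k j => MM_deriv hKap hD h hA a k j
  have hMc : ContinuousAt (fun ε : ℝ => MM h (σ ε)) 0 :=
    continuousAt_pi.2 fun k => continuousAt_pi.2 fun j => (hder k j).continuousAt
  have hdet0 : (MM h (σ 0)).det ≠ 0 := by
    rw [hσ0]
    exact (nd_iff hPv h hA).1 hN
  have hdetc : ContinuousAt (fun ε : ℝ => (MM h (σ ε)).det) 0 :=
    (Continuous.matrix_det continuous_id).continuousAt.comp hMc
  have hJc : ContinuousAt (fun ε : ℝ => JM h (σ ε)) 0 := by
    have h1 : ContinuousAt (fun ε : ℝ => (MM h (σ ε))⁻¹) 0 := by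
      have h2 : (fun ε : ℝ => (MM h (σ ε))⁻¹) =
          fun ε => ((MM h (σ ε)).det)⁻¹ • (MM h (σ ε)).adjugate := by
        funext ε
        rw [Matrix.inv_def, Ring.inverse_eq_inv']
      rw [h2]
      have h3 : ContinuousAt (fun ε : ℝ => ((MM h (σ ε)).det)⁻¹) 0 := hdetc.inv₀ hdet0
      have h4 : ContinuousAt (fun ε : ℝ => (MM h (σ ε)).adjugate) 0 :=
        (Continuous.matrix_adjugate continuous_id).continuousAt.comp hMc
      exact h3.smul h4
    exact (hMc.mul continuousAt_const).mul h1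
  -- the difference quotients of the matrix
  have hT : Filter.Tendsto (fun ε : ℝ => ((ε⁻¹ : ℝ) : ℂ) • (MM h (σ ε) - MM h (σ 0)))
      (𝓝[≠] 0) (𝓝 (MD h s a)) := by
    refine tendsto_pi_nhds.2 fun k => tendsto_pi_nhds.2 fun j => ?_
    have h1 := (hder k j).tendsto_slope
    refine h1.congr fun ε => ?_
    rw [slope_def_module, sub_zero]
    simp only [Matrix.smul_apply, Matrix.sub_apply]
    rw [Complex.coe_smul]
  have hJc' : Filter.Tendsto (fun ε : ℝ => JM h (σ ε)) (𝓝[≠] 0) (𝓝 (JM h s)) := by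
    have h1 : Filter.Tendsto (fun ε : ℝ => JM h (σ ε)) (𝓝 0) (𝓝 (JM h (σ 0))) := hJc
    rw [hσ0] at h1
    exact h1.mono_left nhdsWithin_le_nhds
  have hlim : Filter.Tendsto (fun ε : ℝ =>
      ((((ε⁻¹ : ℝ) : ℂ) • (MM h (σ ε) - MM h (σ 0))) * DD h -
        JM h (σ ε) * (((ε⁻¹ : ℝ) : ℂ) • (MM h (σ ε) - MM h (σ 0)))) * (MM h s)⁻¹)
      (𝓝[≠] 0) (𝓝 ((MD h s a * DD h - JM h s * MD h s a) * (MM h s)⁻¹)) :=
    ((hT.mul tendsto_const_nhds).sub (hJc'.mul hT)).mul tendsto_const_nhds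
  have hisJ : ∀ ε, σ ε ∈ U → Matrix.toLin' (JM h (σ ε)) ∈ g := by
    intro ε hε
    obtain ⟨k1, k2⟩ := hUA _ hε
    exact hg _ hε _ (JM_isJ hPv h k1 ((nd_iff hPv h k1).1 k2))
  set g' : Submodule ℂ (Matrix (Fin r) (Fin r) ℂ) :=
    g.comap (Matrix.toLin' (R := ℂ) (m := Fin r) (n := Fin r)).toLinearMap with hg'
  have hcl : IsClosed (g' : Set (Matrix (Fin r) (Fin r) ℂ)) := g'.closed_of_finiteDimensional
  have hmem : ∀ᶠ ε in 𝓝[≠] (0 : ℝ),
      ((((ε⁻¹ : ℝ) : ℂ) • (MM h (σ ε) - MM h (σ 0))) * DD h -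
        JM h (σ ε) * (((ε⁻¹ : ℝ) : ℂ) • (MM h (σ ε) - MM h (σ 0)))) * (MM h s)⁻¹ ∈ g' := by
    filter_upwards [nhdsWithin_le_nhds hev] with ε hε
    have hε' : σ ε ∈ U := hε
    have hs0 : σ 0 ∈ U := by
      rw [hσ0]
      exact hs
    have e1 : JM h (σ ε) * MM h (σ ε) = MM h (σ ε) * DD h := by
      have hu : IsUnit (MM h (σ ε)).det :=
        isUnit_iff_ne_zero.2 ((nd_iff hPv h (hUA _ hε').1).1 (hUA _ hε').2)
      rw [JM, Matrix.mul_assoc, Matrix.nonsing_inv_mul _ hu, Matrix.mul_one]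
    have hu0 : IsUnit (MM h (σ 0)).det := isUnit_iff_ne_zero.2 hdet0
    have e2 : JM h (σ 0) * MM h (σ 0) = MM h (σ 0) * DD h := by
      rw [JM, Matrix.mul_assoc, Matrix.nonsing_inv_mul _ hu0, Matrix.mul_one]
    have e3 : ((((ε⁻¹ : ℝ) : ℂ) • (MM h (σ ε) - MM h (σ 0))) * DD h -
        JM h (σ ε) * (((ε⁻¹ : ℝ) : ℂ) • (MM h (σ ε) - MM h (σ 0)))) * (MM h s)⁻¹ =
        ((ε⁻¹ : ℝ) : ℂ) • (JM h (σ ε) - JM h (σ 0)) := by
      have e4 : (((ε⁻¹ : ℝ) : ℂ) • (MM h (σ ε) - MM h (σ 0))) * DD h -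
          JM h (σ ε) * (((ε⁻¹ : ℝ) : ℂ) • (MM h (σ ε) - MM h (σ 0))) =
          (((ε⁻¹ : ℝ) : ℂ) • (JM h (σ ε) - JM h (σ 0))) * MM h (σ 0) := by
        rw [Matrix.smul_mul, Matrix.mul_smul, Matrix.smul_mul, ← smul_sub, Matrix.sub_mul,
          Matrix.mul_sub, Matrix.sub_mul, e1, e2]
        congr 1
        abel
      rw [e4, ← hσ0, Matrix.mul_assoc, Matrix.mul_nonsing_inv _ hu0, Matrix.mul_one]
    rw [e3]
    refine g'.smul_mem _ (g'.sub_mem ?_ ?_)
    · exact hisJ ε hε'
    · exact hisJ 0 hs0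
  have hin : (MD h s a * DD h - JM h s * MD h s a) * (MM h s)⁻¹ ∈ g' :=
    hcl.mem_of_tendsto hlim hmem
  have hJ0 : J = Matrix.toLin' (JM h s) := by
    obtain ⟨J0, -, huniq, -⟩ := hJx m r b u s hA hN
    rw [huniq J hJ, ← huniq _ (JM_isJ hPv h hA ((nd_iff hPv h hA).1 hN))]
  refine ⟨Matrix.toLin' ((MD h s a * DD h - JM h s * MD h s a) * (MM h s)⁻¹), hin, ?_⟩
  have hu : IsUnit (MM h s).det := isUnit_iff_ne_zero.2 ((nd_iff hPv h hA).1 hN)
  have key : ∀ (v : Fin r → ℂ) (z : ℂ), (DD h).mulVec v = z • v →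
      Matrix.toLin' ((MD h s a * DD h - JM h s * MD h s a) * (MM h s)⁻¹) ((MM h s).mulVec v) =
        z • (MD h s a).mulVec v - J ((MD h s a).mulVec v) := by
    intro v z hz
    rw [Matrix.toLin'_apply, Matrix.mulVec_mulVec, Matrix.mul_assoc, Matrix.nonsing_inv_mul _ hu,
      Matrix.mul_one, Matrix.sub_mulVec, ← Matrix.mulVec_mulVec, ← Matrix.mulVec_mulVec, hz,
      Matrix.mulVec_smul, hJ0, Matrix.toLin'_apply]
  constructor
  · intro f hf
    have h1 : Pc m b u s f = (MM h s).mulVec (fun j => Sum.elim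
        (fun i : Fin (sg m r b u) => f.coeff i) (fun _ : Fin (sg m r b (m - u)) => (0 : ℂ))
          ((ee h).symm j)) := by
      rw [MM_mulVec, pv_eq hPv hA _ f hf]
      simp
    have h3 : Pc m b u s (Thc (mu m b u) s a f) = (MD h s a).mulVec (fun j => Sum.elim
        (fun i : Fin (sg m r b u) => f.coeff i) (fun _ : Fin (sg m r b (m - u)) => (0 : ℂ))
          ((ee h).symm j)) := by
      rw [MD_mulVec, pv_th_eq hPv hA a _ f hf]
      simp
    have h2 : (DD h).mulVec (fun j => Sum.elim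
        (fun i : Fin (sg m r b u) => f.coeff i) (fun _ : Fin (sg m r b (m - u)) => (0 : ℂ))
          ((ee h).symm j)) = Complex.I • (fun j => Sum.elim
        (fun i : Fin (sg m r b u) => f.coeff i) (fun _ : Fin (sg m r b (m - u)) => (0 : ℂ))
          ((ee h).symm j)) := by
      funext j
      rw [DD, Matrix.mulVec_diagonal, Pi.smul_apply, smul_eq_mul]
      rcases (ee h).symm j with i | l <;> simp
    rw [h1, key _ _ h2, ← h3]
  · intro f hf
    have h1 : star (Pc m b (m - u) s f) = (MM h s).mulVec (fun j => Sum.elim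
        (fun _ : Fin (sg m r b u) => (0 : ℂ))
        (fun l : Fin (sg m r b (m - u)) => star (f.coeff l)) ((ee h).symm j)) := by
      rw [MM_mulVec, star_pv_eq hPv hA' _ f hf]
      simp
    have h3 : star (Pc m b (m - u) s (Thc (mu m b (m - u)) s a f)) =
        (MD h s a).mulVec (fun j => Sum.elim
        (fun _ : Fin (sg m r b u) => (0 : ℂ))
        (fun l : Fin (sg m r b (m - u)) => star (f.coeff l)) ((ee h).symm j)) := by
      rw [MD_mulVec, pv_th_eq hPv hA' a _ f hf, star_sum]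
      simp only [star_smul, zero_smul, Finset.sum_const_zero, zero_add]
    have h2 : (DD h).mulVec (fun j => Sum.elim
        (fun _ : Fin (sg m r b u) => (0 : ℂ))
        (fun l : Fin (sg m r b (m - u)) => star (f.coeff l)) ((ee h).symm j)) =
        -Complex.I • (fun j => Sum.elim (fun _ : Fin (sg m r b u) => (0 : ℂ))
        (fun l : Fin (sg m r b (m - u)) => star (f.coeff l)) ((ee h).symm j)) := by
      funext j
      rw [DD, Matrix.mulVec_diagonal, Pi.smul_apply, smul_eq_mul]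
      rcases (ee h).symm j with i | l <;> simp
    rw [h1, key _ _ h2, ← h3]

end SEH
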