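import Pool.Agent.Lib.SE.Hyp.Spec
/-! # PROJECT SE, module IsBig, part 5: the constants -/

set_option autoImplicit false

open Module MeasureTheory Topology

noncomputable section

namespace SEH

open HC HC.E HC.SE SEB

/-- the constants do not depend on the branch points -/
theorem tcKap : S_Kap → S_cKap := by
  intro hKap m r b u s hA
  obtain ⟨-, hcov, hum, huc⟩ := hA
  have hmono : StrictMono fun j : Fin (r + 1) => ((j.val : ℕ) : ℝ) := fun i j hij =>
    Nat.cast_lt.2 hij
  refine hKap m r b u (fun j => ((j.val : ℕ) : ℝ)) ⟨hmono, ⟨hcov.1, ?_, hcov.2.2⟩, hum, huc⟩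
  exact Complex.ofReal_injective.comp hmono.injective

end SEH
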