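import Pool.Agent.Lib.SE.Hyp.Spec
/-! # PROJECT SE, module IsBig, part 5, module cPv: linearity of the period vectors (complex branch points) -/

set_option autoImplicit false

open Module MeasureTheory Topology

noncomputable section

namespace SEH

open HC HC.E HC.SE SEB

namespace cPv_aux

theorem integrable_c (hI : S_cI) {r : ℕ} {μ : Fin (r + 1) → ℝ} (hμ : Exq μ)
    {s : Fin (r + 1) → ℂ} (hs : Inc s) (k : Fin r) (f : Polynomial ℂ) :
    IntervalIntegrable (fun t : ℝ => ((t ^ (-μ k.castSucc) * (1 - t) ^ (-μ k.succ) : ℝ) : ℂ) *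
      (Hc μ s k t * f.eval (seg s k t))) volume 0 1 := by
  have h0 := hI.1 (μ k.castSucc) (μ k.succ) (hμ k.castSucc).2 (hμ k.succ).2
  have h1 : IntervalIntegrable
      (fun t : ℝ => ((t ^ (-μ k.castSucc) * (1 - t) ^ (-μ k.succ) : ℝ) : ℂ)) volume 0 1 :=
    ⟨h0.1.ofReal, h0.2.ofReal⟩
  refine h1.mul_continuousOn ?_
  rw [Set.uIcc_of_le zero_le_one]
  have h2 := ((hI.2 r μ).2.2 k).2
  refine ContinuousOn.mul ?_ ?_
  · exact h2.comp (f := fun t : ℝ => (s, t)) (by fun_prop) fun t ht => ⟨hs, ht⟩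
  · refine (f.continuous.comp ?_).continuousOn
    unfold seg
    fun_prop

end cPv_aux

open cPv_aux in
theorem tcPv : S_cI → S_cKap → S_cPv := by
  intro hI hKap m r b u s hA
  obtain ⟨_, hmu, _, _⟩ := hKap m r b u s hA
  have hs : Inc s := hA.1
  refine ⟨?_, ?_⟩
  · intro f g
    funext k
    simp only [Pc, Ic, Pi.add_apply, Polynomial.eval_add, mul_add]
    rw [intervalIntegral.integral_add (integrable_c hI hmu hs k f) (integrable_c hI hmu hs k g),
      mul_add]
  · intro c f
    funext k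
    simp only [Pc, Ic, Pi.smul_apply, smul_eq_mul, Polynomial.eval_mul, Polynomial.eval_C]
    have h1 : ∀ t : ℝ, (((t ^ (-mu m b u k.castSucc) * (1 - t) ^ (-mu m b u k.succ) : ℝ)) : ℂ) *
        (Hc (mu m b u) s k t * (c * f.eval (seg s k t))) =
        c * ((((t ^ (-mu m b u k.castSucc) * (1 - t) ^ (-mu m b u k.succ) : ℝ)) : ℂ) *
        (Hc (mu m b u) s k t * f.eval (seg s k t))) := fun t => by ring
    simp only [h1]
    rw [intervalIntegral.integral_const_mul]
    ring

end SEH
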