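import Pool.Agent.Lib.SE.Hyp.Spec
import Pool.Agent.Lib.SE.Hyp.Sg
/-!
# PROJECT SE, module IsBig, part 5: the rank one operators, complex points (module cRk1)
-/

set_option autoImplicit false

open Module

noncomputable section

namespace SEH

open HC HC.E HC.SE SEB

namespace cRk1_aux

/-! ### Division by `X - c` -/

/-- The quotient of `a` by `X - c` times `X - c`. -/
theorem mul_dv (a : Polynomial ℂ) (c : ℂ) :
    (Polynomial.X - Polynomial.C c) * (a /ₘ (Polynomial.X - Polynomial.C c)) =
      a - Polynomial.C (a.eval c) := by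
  have h := Polynomial.modByMonic_add_div a (Polynomial.X - Polynomial.C c)
  rw [Polynomial.modByMonic_X_sub_C_eq_C_eval] at h
  linear_combination h

theorem dv_unique {a g : Polynomial ℂ} {c : ℂ}
    (h : (Polynomial.X - Polynomial.C c) * g = a - Polynomial.C (a.eval c)) :
    a /ₘ (Polynomial.X - Polynomial.C c) = g := by
  refine mul_left_cancel₀ (Polynomial.X_sub_C_ne_zero c) ?_
  rw [mul_dv, h]

theorem dv_add (a b : Polynomial ℂ) (c : ℂ) :
    (a + b) /ₘ (Polynomial.X - Polynomial.C c) =
      a /ₘ (Polynomial.X - Polynomial.C c) + b /ₘ (Polynomial.X - Polynomial.C c) := by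
  refine dv_unique ?_
  rw [mul_add, mul_dv, mul_dv, Polynomial.eval_add, Polynomial.C_add]
  ring

theorem dv_smul (x : ℂ) (a : Polynomial ℂ) (c : ℂ) :
    (Polynomial.C x * a) /ₘ (Polynomial.X - Polynomial.C c) =
      Polynomial.C x * (a /ₘ (Polynomial.X - Polynomial.C c)) := by
  refine dv_unique ?_
  rw [mul_left_comm, mul_dv, Polynomial.eval_mul, Polynomial.eval_C, Polynomial.C_mul]
  ring

/-! ### The operator `Th` -/

section
variable {r : ℕ} (μ : Fin (r + 1) → ℝ) (s : Fin (r + 1) → ℂ)

theorem Th_add (a f g : Polynomial ℂ) :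
    Thc μ s a (f + g) = Thc μ s a f + Thc μ s a g := by
  unfold Thc
  rw [Polynomial.derivative_add]
  ring

theorem Th_C_mul (a f : Polynomial ℂ) (x : ℂ) :
    Thc μ s a (Polynomial.C x * f) = Polynomial.C x * Thc μ s a f := by
  unfold Thc
  rw [Polynomial.derivative_C_mul]
  ring

theorem Th_one (a : Polynomial ℂ) :
    Thc μ s a 1 = Polynomial.derivative a -
      ∑ j, Polynomial.C (μ j : ℂ) * (a /ₘ (Polynomial.X - Polynomial.C (s j))) := by
  unfold Thc
  rw [Polynomial.derivative_one, zero_mul, zero_add, one_mul]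

theorem Th_one_add (a a' : Polynomial ℂ) :
    Thc μ s (a + a') 1 = Thc μ s a 1 + Thc μ s a' 1 := by
  rw [Th_one, Th_one, Th_one]
  simp only [dv_add, mul_add, Finset.sum_add_distrib, Polynomial.derivative_add]
  ring

theorem Th_one_smul (x : ℂ) (a : Polynomial ℂ) :
    Thc μ s (Polynomial.C x * a) 1 = Polynomial.C x * Thc μ s a 1 := by
  rw [Th_one, Th_one, mul_sub, Finset.mul_sum, Polynomial.derivative_C_mul]
  congr 1
  refine Finset.sum_congr rfl fun j _ => ?_
  rw [dv_smul]
  ring

theorem Th_one_zero : Thc μ s 0 1 = 0 := by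
  have h := Th_one_smul μ s 0 0
  simpa using h

theorem Th_one_sum {ι : Type*} (T : Finset ι) (c : ι → ℂ) (a : ι → Polynomial ℂ) :
    Thc μ s (∑ i ∈ T, Polynomial.C (c i) * a i) 1 =
      ∑ i ∈ T, Polynomial.C (c i) * Thc μ s (a i) 1 := by
  classical
  induction T using Finset.induction_on with
  | empty => simp [Th_one_zero]
  | insert i T hi ih =>
    rw [Finset.sum_insert hi, Finset.sum_insert hi, Th_one_add, Th_one_smul, ih]

/-- The degree of `Th a 1`. -/
theorem Th_one_degree {a : Polynomial ℂ} (ha : a ≠ 0) :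
    (Thc μ s a 1).degree < a.degree := by
  rw [Th_one]
  refine lt_of_le_of_lt (Polynomial.degree_sub_le _ _) (max_lt ?_ ?_)
  · exact Polynomial.degree_derivative_lt ha
  · have h0 : (⊥ : WithBot ℕ) < a.degree := by
      rw [bot_lt_iff_ne_bot, Ne, Polynomial.degree_eq_bot]
      exact ha
    refine lt_of_le_of_lt (Polynomial.degree_sum_le _ _) ?_
    rw [Finset.sup_lt_iff h0]
    intro j _
    have h1 : (Polynomial.C (μ j : ℂ) *
        (a /ₘ (Polynomial.X - Polynomial.C (s j)))).degree ≤
        (a /ₘ (Polynomial.X - Polynomial.C (s j))).degree := by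
      rw [Polynomial.degree_mul]
      calc _ ≤ 0 + (a /ₘ (Polynomial.X - Polynomial.C (s j))).degree :=
            add_le_add Polynomial.degree_C_le le_rfl
        _ = _ := zero_add _
    refine lt_of_le_of_lt h1 ?_
    refine Polynomial.degree_divByMonic_lt _ _ ha ?_
    rw [Polynomial.degree_X_sub_C]
    exact zero_lt_one

/-- The leading coefficient of the quotient by `X - c`. -/
theorem dv_coeff {a : Polynomial ℂ} {n : ℕ} (hn : a.natDegree = n + 1) (c : ℂ) :
    (a /ₘ (Polynomial.X - Polynomial.C c)).coeff n = a.coeff (n + 1) := by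
  have ha : a ≠ 0 := by
    rintro rfl
    rw [Polynomial.natDegree_zero] at hn
    omega
  have h1 : (a /ₘ (Polynomial.X - Polynomial.C c)).degree < a.degree := by
    refine Polynomial.degree_divByMonic_lt _ _ ha ?_
    rw [Polynomial.degree_X_sub_C]
    exact zero_lt_one
  rw [Polynomial.degree_eq_natDegree ha, hn] at h1
  have h2 := congrArg (fun g : Polynomial ℂ => g.coeff (n + 1)) (mul_dv a c)
  simp only [sub_mul, Polynomial.coeff_sub, Polynomial.coeff_X_mul, Polynomial.coeff_C_mul,
    Polynomial.coeff_C_succ] at h2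
  rw [Polynomial.coeff_eq_zero_of_degree_lt h1] at h2
  linear_combination h2

theorem Th_one_coeff {a : Polynomial ℂ} {n : ℕ} (hn : a.natDegree = n + 1) :
    (Thc μ s a 1).coeff n =
      (((n : ℂ) + 1) - ∑ j, (μ j : ℂ)) * a.coeff (n + 1) := by
  rw [Th_one, Polynomial.coeff_sub, Polynomial.coeff_derivative, Polynomial.finsetSum_coeff]
  simp only [Polynomial.coeff_C_mul, dv_coeff hn]
  rw [← Finset.sum_mul]
  ring

/-- The polynomial `∏ (X - s_j)`. -/
def Q : Polynomial ℂ := ∏ j, (Polynomial.X - Polynomial.C (s j))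

/-- The constant. -/
def cc (j : Fin (r + 1)) : ℂ := (∏ l ∈ Finset.univ.erase j, (s j - s l))⁻¹

/-- The polynomial with the values `δ_(jl)` at the `s_l`. -/
def ac (j : Fin (r + 1)) : Polynomial ℂ :=
  Polynomial.C (cc s j) * ∏ l ∈ Finset.univ.erase j, (Polynomial.X - Polynomial.C (s l))

theorem mul_ac (j : Fin (r + 1)) :
    (Polynomial.X - Polynomial.C (s j)) * ac s j = Polynomial.C (cc s j) * Q s := by
  rw [ac, mul_left_comm, Q]
  congr 1
  exact Finset.mul_prod_erase Finset.univ (fun l => Polynomial.X - Polynomial.C (s l))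
    (Finset.mem_univ j)

theorem eval_ac (hs : Function.Injective s) (j l : Fin (r + 1)) :
    (ac s j).eval (s l) = if l = j then 1 else 0 := by
  rw [ac, Polynomial.eval_mul, Polynomial.eval_C, Polynomial.eval_prod, cc]
  simp only [Polynomial.eval_sub, Polynomial.eval_X, Polynomial.eval_C]
  split_ifs with h
  · subst h
    refine inv_mul_cancel₀ (Finset.prod_ne_zero_iff.2 fun k hk => ?_)
    rw [Finset.mem_erase] at hk
    rw [sub_ne_zero]
    exact fun h => hk.1 (hs h).symm
  · have h5 : ∏ k ∈ Finset.univ.erase j, (s l - s k) = 0 :=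
      Finset.prod_eq_zero (Finset.mem_erase.2 ⟨h, Finset.mem_univ l⟩) (sub_self _)
    rw [h5, mul_zero]

theorem natDegree_ac (j : Fin (r + 1)) : (ac s j).natDegree ≤ r := by
  rw [ac]
  refine (Polynomial.natDegree_C_mul_le _ _).trans ?_
  refine (Polynomial.natDegree_prod_le _ _).trans ?_
  refine (Finset.sum_le_card_nsmul _ _ 1 fun l _ => ?_).trans ?_
  · exact Polynomial.natDegree_X_sub_C_le _
  · rw [Finset.card_erase_of_mem (Finset.mem_univ j), Finset.card_univ, Fintype.card_fin]
    simp

theorem eval_Q (l : Fin (r + 1)) : (Q s).eval (s l) = 0 := by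
  rw [Q, Polynomial.eval_prod]
  refine Finset.prod_eq_zero (Finset.mem_univ l) ?_
  simp

theorem mul_dv_ac (hs : Function.Injective s) (j l : Fin (r + 1)) :
    (Polynomial.X - Polynomial.C (s j)) *
        (ac s j /ₘ (Polynomial.X - Polynomial.C (s l))) =
      Polynomial.C (cc s j) * (Q s /ₘ (Polynomial.X - Polynomial.C (s l))) -
        if l = j then 1 else 0 := by
  refine mul_left_cancel₀ (Polynomial.X_sub_C_ne_zero (s l)) ?_
  have h1 := mul_dv (ac s j) (s l)
  have h2 := mul_dv (Q s) (s l)
  have h3 := mul_ac s j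
  rw [eval_ac s hs] at h1
  rw [eval_Q, Polynomial.C_0, sub_zero] at h2
  by_cases h : l = j
  · subst h
    simp only [if_true, Polynomial.C_1] at h1 ⊢
    linear_combination (Polynomial.X - Polynomial.C (s l)) * h1 + h3 -
      Polynomial.C (cc s l) * h2
  · simp only [if_neg h, Polynomial.C_0, sub_zero] at h1 ⊢
    linear_combination (Polynomial.X - Polynomial.C (s j)) * h1 + h3 -
      Polynomial.C (cc s j) * h2

theorem Th_ac (hs : Function.Injective s) (j : Fin (r + 1)) (f : Polynomial ℂ) :
    Thc μ s (ac s j) ((Polynomial.X - Polynomial.C (s j)) * f) =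
      Polynomial.C (cc s j) * Thc μ s (Q s) f +
        Polynomial.C (μ j : ℂ) * f := by
  have h1 : Polynomial.derivative ((Polynomial.X - Polynomial.C (s j)) * ac s j) =
      Polynomial.derivative (Polynomial.C (cc s j) * Q s) := by rw [mul_ac]
  rw [Polynomial.derivative_mul, Polynomial.derivative_C_mul, Polynomial.derivative_sub,
    Polynomial.derivative_X, Polynomial.derivative_C, sub_zero, one_mul] at h1
  have h2 : (Polynomial.X - Polynomial.C (s j)) *
      ∑ l, Polynomial.C (μ l : ℂ) *
        (ac s j /ₘ (Polynomial.X - Polynomial.C (s l))) =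
      Polynomial.C (cc s j) * (∑ l, Polynomial.C (μ l : ℂ) *
        (Q s /ₘ (Polynomial.X - Polynomial.C (s l)))) -
        Polynomial.C (μ j : ℂ) := by
    have h3 : ∀ l, (Polynomial.X - Polynomial.C (s j)) *
        (Polynomial.C (μ l : ℂ) *
          (ac s j /ₘ (Polynomial.X - Polynomial.C (s l)))) =
        Polynomial.C (cc s j) * (Polynomial.C (μ l : ℂ) *
          (Q s /ₘ (Polynomial.X - Polynomial.C (s l)))) -
          if l = j then Polynomial.C (μ l : ℂ) else 0 := by
      intro l
      rw [mul_left_comm, mul_dv_ac s hs]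
      split_ifs <;> ring
    rw [Finset.mul_sum, Finset.sum_congr rfl fun l _ => h3 l, Finset.sum_sub_distrib,
      ← Finset.mul_sum, Finset.sum_ite_eq' Finset.univ j, if_pos (Finset.mem_univ j)]
  unfold Thc
  rw [Polynomial.derivative_mul, Polynomial.derivative_sub, Polynomial.derivative_X,
    Polynomial.derivative_C, sub_zero, one_mul]
  linear_combination f * h1 - f * h2 + Polynomial.derivative f * mul_ac s j

end

end cRk1_aux

open cRk1_aux in
theorem tcRk1 : S_cPv → S_cE → S_cJx → S_cKap → S_cRk1 := by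
  intro hPv hPvE hJx hKap m r b u s hA hN hNj J hJ
  obtain ⟨hadd, hsm⟩ := hPv m r b u s hA
  obtain ⟨J', hJ', hun, hJJ, hplus, -, -, -⟩ := hJx m r b u s hA hN
  have hJeq : J = J' := hun J hJ
  rw [← hJeq] at hJJ hplus
  obtain ⟨hI, hcov, hum, huc⟩ := hA
  obtain ⟨-, hExq, hmu, hkap⟩ := hKap m r b u s ⟨hI, hcov, hum, huc⟩
  have hs : Function.Injective s := hcov.2.1
  have hinj : ∀ f : Polynomial ℂ, f.degree < (r : WithBot ℕ) → Pc m b u s f = 0 → f = 0 := by
    intro f hf h0
    refine hNj f hf fun k => ?_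
    have h1 : kap m b u k * Ic (mu m b u) s k (fun x => f.eval x) = 0 := congrFun h0 k
    exact (mul_eq_zero.1 h1).resolve_left (hkap k).1
  have hE : ∀ f : Polynomial ℂ, Pc m b u s (Thc (mu m b u) s (Q s) f) = 0 := by
    intro f
    funext k
    have h1 : Ic (mu m b u) s k (fun x => (Thc (mu m b u) s (Q s) f).eval x) = 0 :=
      hPvE r (mu m b u) s hExq hI f k
    change kap m b u k * Ic (mu m b u) s k (fun x => (Thc (mu m b u) s (Q s) f).eval x) = 0
    rw [h1, mul_zero]
  have hsg := tSg m r _ b hcov u hum huc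
  have hJJv : ∀ v, J (J v) = -v := fun v => by
    have := congrArg (fun T : Module.End ℂ (Fin r → ℂ) => T v) hJJ
    simpa using this
  have hPv0 : Pc m b u s 0 = 0 := by
    have := hsm 0 0
    simpa using this
  have hsub : ∀ f g, Pc m b u s (f - g) = Pc m b u s f - Pc m b u s g := by
    intro f g
    have h1 := hadd (f - g) g
    rw [sub_add_cancel] at h1
    rw [h1, add_sub_cancel_right]
  have hsum : ∀ (T : Finset (Fin (r + 1))) (c : Fin (r + 1) → ℂ)
      (g : Fin (r + 1) → Polynomial ℂ), Pc m b u s (∑ i ∈ T, Polynomial.C (c i) * g i) =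
        ∑ i ∈ T, c i • Pc m b u s (g i) := by
    intro T c g
    induction T using Finset.induction_on with
    | empty => simpa using hPv0
    | insert i T hi ih => rw [Finset.sum_insert hi, Finset.sum_insert hi, hadd, hsm, ih]
  set w : Fin (r + 1) → (Fin r → ℂ) := fun j => Pc m b u s (Thc (mu m b u) s (ac s j) 1) with hw
  refine ⟨fun j => Complex.I • w j - J (w j), ?_, ?_, ?_⟩
  · intro j
    simp only
    rw [map_sub, map_smul, hJJv, smul_sub, smul_smul]
    have : (-Complex.I * Complex.I : ℂ) = 1 := by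
      rw [neg_mul, Complex.I_mul_I, neg_neg]
    rw [this, one_smul, neg_smul]
    module
  · intro j
    refine ⟨ac s j, fun f hf => ?_⟩
    have hfe : f = Polynomial.C (f.eval (s j)) * 1 +
        (Polynomial.X - Polynomial.C (s j)) *
          (f /ₘ (Polynomial.X - Polynomial.C (s j))) := by
      rw [mul_dv]
      ring
    set f1 := f /ₘ (Polynomial.X - Polynomial.C (s j)) with hf1
    have hf1d : f1.degree < (sg m r b u : WithBot ℕ) :=
      lt_of_le_of_lt (Polynomial.degree_divByMonic_le _ _) hf
    have hTh : Pc m b u s (Thc (mu m b u) s (ac s j) f) =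
        f.eval (s j) • w j + (mu m b u j : ℂ) • Pc m b u s f1 := by
      conv_lhs => rw [hfe]
      rw [Th_add, Th_C_mul, Th_ac (mu m b u) s hs, hadd, hadd, hsm, hsm, hsm, hE f1, smul_zero,
        zero_add]
    rw [hTh, map_add, map_smul, map_smul, hJ.1 f1 hf1d]
    module
  · intro c hc hsum0
    set a : Polynomial ℂ := ∑ j, Polynomial.C (c j) * ac s j with ha
    have hav : ∀ l, a.eval (s l) = c l := by
      intro l
      rw [ha, Polynomial.eval_finsetSum]
      simp only [Polynomial.eval_mul, Polynomial.eval_C, eval_ac s hs]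
      simp
    have had : a.natDegree ≤ r := by
      rw [ha]
      refine Polynomial.natDegree_sum_le_of_forall_le _ _ fun j _ => ?_
      exact (Polynomial.natDegree_C_mul_le _ _).trans (natDegree_ac s j)
    have hW : Pc m b u s (Thc (mu m b u) s a 1) = ∑ j, c j • w j := by
      rw [ha, Th_one_sum, hsum]
    have hJW : J (Pc m b u s (Thc (mu m b u) s a 1)) =
        Complex.I • Pc m b u s (Thc (mu m b u) s a 1) := by
      rw [hW, map_sum, Finset.smul_sum, ← sub_eq_zero, ← Finset.sum_sub_distrib]
      rw [← neg_eq_zero, ← Finset.sum_neg_distrib, ← hsum0]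
      refine Finset.sum_congr rfl fun j _ => ?_
      rw [map_smul]
      module
    obtain ⟨f, hfd, hfv⟩ := (hplus _).1 hJW
    by_contra hne
    have ha0 : a ≠ 0 := by
      intro h
      apply hne
      funext l
      rw [← hav l, h]
      simp
    have hThd := Th_one_degree (mu m b u) s ha0
    have hdr : a.degree ≤ (r : WithBot ℕ) := Polynomial.degree_le_of_natDegree_le had
    have hpr : (sg m r b u : WithBot ℕ) ≤ (r : WithBot ℕ) := by
      exact_mod_cast (by omega : sg m r b u ≤ r)
    have hTf : Thc (mu m b u) s a 1 = f := by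
      rw [← sub_eq_zero]
      refine hinj _ ?_ ?_
      · refine lt_of_le_of_lt (Polynomial.degree_sub_le _ _) (max_lt ?_ ?_)
        · exact lt_of_lt_of_le hThd hdr
        · exact lt_of_lt_of_le hfd hpr
      · rw [hsub, hfv, sub_self]
    -- the number of zeros
    have hz : sg m r b u + 1 ≤ a.natDegree := by
      by_contra hcon
      push Not at hcon
      apply ha0
      classical
      refine Polynomial.eq_zero_of_natDegree_lt_card_of_eval_eq_zero' a
        ((Finset.univ.filter fun j => ¬ c j ≠ 0).image fun j => s j) ?_ ?_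
      · intro z hz
        rw [Finset.mem_image] at hz
        obtain ⟨j, hj, rfl⟩ := hz
        rw [Finset.mem_filter] at hj
        rw [hav]
        exact not_not.1 hj.2
      · rw [Finset.card_image_of_injective _ hs]
        have hcard := Finset.card_filter_add_card_filter_not
          (s := (Finset.univ : Finset (Fin (r + 1)))) (fun j => c j ≠ 0)
        rw [Finset.card_univ, Fintype.card_fin] at hcard
        omega
    obtain ⟨n, hn⟩ : ∃ n, a.natDegree = n + 1 := ⟨a.natDegree - 1, by omega⟩
    have hco := Th_one_coeff (mu m b u) s hn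
    rw [hTf] at hco
    have hf0 : f.coeff n = 0 := by
      refine Polynomial.coeff_eq_zero_of_degree_lt (lt_of_lt_of_le hfd ?_)
      exact_mod_cast (by omega : sg m r b u ≤ n)
    rw [hf0] at hco
    have hlc : a.coeff (n + 1) ≠ 0 := by
      rw [← hn]
      exact Polynomial.leadingCoeff_ne_zero.2 ha0
    have h3 : ((n : ℂ) + 1) - ∑ j, ((mu m b u j : ℝ) : ℂ) = 0 := by
      rcases mul_eq_zero.1 hco.symm with h | h
      · exact h
      · exact absurd h hlc
    apply hmu ((n : ℤ) + 1)
    have h4 : ((∑ j, mu m b u j : ℝ) : ℂ) = (((n : ℤ) + 1 : ℤ) : ℂ) := by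
      push_cast
      linear_combination -h3
    exact_mod_cast h4

end SEH
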