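import Pool.Agent.Lib.SE.Hyp.Spec2
import Pool.Agent.Lib.SE.Big.EB

/-!
# PROJECT SE-S, module hEB: a rational basis of the lattice (helper77)
-/

set_option autoImplicit false

open Module

noncomputable section

namespace SEH

open HC HC.E HC.SE SEB

namespace hEB_aux

variable {T : AV} {r : ℕ}

theorem indep {v : Fin r → T.V} (hv : ∀ k, v k ∈ T.L) {B : Frm T} (hA : AInd (fun k => B (v k))) :
    LinearIndependent ℤ (fun k => (⟨v k, hv k⟩ : T.L)) := by
  rw [Fintype.linearIndependent_iff]
  intro g hg k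
  have h1 : ∑ k, g k • v k = 0 := by
    have h2 := congrArg (fun z : T.L => (z : T.V)) hg
    simp only [Submodule.coe_sum, Submodule.coe_smul, Submodule.coe_zero] at h2
    exact h2
  have h3 := congrArg B h1
  rw [map_sum, map_zero] at h3
  have h4 := hA (fun k => (g k : ℂ)) (fun k => isAlgebraic_intCast (g k)) (by
    rw [← h3]
    exact Finset.sum_congr rfl fun k _ => by rw [map_zsmul, zsmul_eq_mul])
  have h5 : (g k : ℂ) = 0 := congrFun h4 k
  exact_mod_cast h5

theorem in_span (hd : 2 * finrank ℂ T.V = r) {v : Fin r → T.V} (hv : ∀ k, v k ∈ T.L) {B : Frm T}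
    (hA : AInd (fun k => B (v k))) (y : T.V) (hy : y ∈ T.L) :
    ∃ N : ℤ, N ≠ 0 ∧ ∃ a : Fin r → ℤ, N • y = ∑ k, a k • v k := by
  have : Module.Free ℤ T.L := ZLattice.module_free ℝ T.L
  have : Module.Finite ℤ T.L := ZLattice.module_finite ℝ T.L
  have hI := indep hv hA
  let f : Option (Fin r) → T.L := fun o => o.elim ⟨y, hy⟩ (fun k => ⟨v k, hv k⟩)
  have hf : ¬ LinearIndependent ℤ f := by
    intro h
    have h1 := h.fintype_card_le_finrank
    rw [Fintype.card_option, Fintype.card_fin, ZLattice.rank ℝ T.L, finrank_real_of_complex,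
      hd] at h1
    omega
  rw [Fintype.not_linearIndependent_iff] at hf
  obtain ⟨g, hg, o, ho⟩ := hf
  rw [Fintype.sum_option] at hg
  have hn : g none ≠ 0 := by
    intro h0
    rw [h0, zero_smul, zero_add] at hg
    have h1 := Fintype.linearIndependent_iff.1 hI (fun q => g (some q)) hg
    rcases o with _ | q
    · exact ho h0
    · exact ho (h1 q)
  refine ⟨g none, hn, fun k => -g (some k), ?_⟩
  have h2 := congrArg (fun z : T.L => (z : T.V)) hg
  simp only [Submodule.coe_add, Submodule.coe_sum, Submodule.coe_smul, Submodule.coe_zero] at h2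
  have h3 : g none • y + ∑ k, g (some k) • v k = 0 := h2
  simp only [neg_smul, Finset.sum_neg_distrib]
  exact eq_neg_of_add_eq_zero_left h3

end hEB_aux

open hEB_aux in
theorem thEB : S_hEB := by
  classical
  intro T r hd v hv B hA
  have hspan : Submodule.span ℝ (Set.range v) = ⊤ := by
    have h1 : Submodule.span ℝ (T.L : Set T.V) = ⊤ := IsZLattice.span_top
    rw [eq_top_iff, ← h1, Submodule.span_le]
    intro y hy
    obtain ⟨N, hN, a, ha⟩ := in_span hd hv hA y hy
    have hN' : (N : ℝ) ≠ 0 := by exact_mod_cast hN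
    have h2 : y = (N : ℝ)⁻¹ • ∑ k, a k • v k := by
      rw [← ha, ← Int.cast_smul_eq_zsmul ℝ, inv_smul_smul₀ hN']
    rw [h2]
    refine Submodule.smul_mem _ _ (Submodule.sum_mem _ fun k _ => ?_)
    rw [← Int.cast_smul_eq_zsmul ℝ]
    exact Submodule.smul_mem _ _ (Submodule.subset_span ⟨k, rfl⟩)
  refine ⟨fun a hak => ?_, fun X hX => ?_, ?_, hspan⟩
  · refine EB_aux.zero_of_lat a fun y hy => ?_
    obtain ⟨N, hN, b, hb⟩ := in_span hd hv hA y hy
    have h1 := congrArg a hb
    rw [map_zsmul, map_sum] at h1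
    have h2 : ∑ k, a (b k • v k) = 0 :=
      Finset.sum_eq_zero fun k _ => by rw [map_zsmul, hak, smul_zero]
    rw [h2, zsmul_eq_mul] at h1
    exact (mul_eq_zero.1 h1).resolve_left (Int.cast_ne_zero.2 hN)
  · have h1 : ∀ k, ∃ (P : ℤ) (a : Fin r → ℤ), P ≠ 0 ∧ P • X (v k) = ∑ j, a j • v j := by
      intro k
      obtain ⟨N, hN, hNL⟩ := hX (v k) (hv k)
      obtain ⟨M, hM, a, ha⟩ := in_span hd hv hA (N • X (v k)) hNL
      refine ⟨M * N, a, mul_ne_zero hM (Int.natCast_ne_zero.2 hN), ?_⟩
      rw [← ha, mul_smul, natCast_zsmul]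
    choose P a hP ha using h1
    refine ⟨∏ k, P k, fun k j => (∏ i ∈ Finset.univ.erase k, P i) * a k j,
      Finset.prod_ne_zero_iff.2 fun k _ => hP k, fun k => ?_⟩
    rw [← Finset.mul_prod_erase Finset.univ P (Finset.mem_univ k), mul_comm, mul_smul, ha k,
      Finset.smul_sum]
    exact Finset.sum_congr rfl fun j _ => (mul_smul _ _ _).symm
  · refine linearIndependent_of_top_le_span_of_card_eq_finrank hspan.ge ?_
    rw [Fintype.card_fin, finrank_real_of_complex, hd]

end SEH
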