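import Pool.Agent.Lib.SE.Hyp.Spec2

/-!
# PROJECT SE-S: transfer (helper56)

From the coordinates of the periods to the Hodge Lie algebra of the Jacobian.
-/

set_option autoImplicit false

open Module MeasureTheory Topology

noncomputable section

namespace SEH

open HC HC.E HC.SE SEB

namespace hTr_aux

variable {T : AV} {r : ℕ}

theorem sg_le (m r : ℕ) (b : Fin (r + 1) → ℕ) (u : ℕ) : sg m r b u ≤ r := by
  have h := Finset.card_filter_le (Finset.univ : Finset (Fin r))
    (fun i : Fin r => m * (i : ℕ) + ∑ j, (u * b j) % m < m * r)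
  rw [Finset.card_univ, Fintype.card_fin] at h
  exact h

theorem deg_lt {m : ℕ} {b : Fin (r + 1) → ℕ} {u : ℕ} {f : Polynomial ℂ}
    (h : f.degree < (sg m r b u : WithBot ℕ)) : f.degree < (r : WithBot ℕ) :=
  lt_of_lt_of_le h (by exact_mod_cast sg_le m r b u)

theorem pinj {m : ℕ} {b : Fin (r + 1) → ℕ} {u : ℕ} {s : Fin (r + 1) → ℂ}
    (hk : ∀ k, kap m b u k ≠ 0)
    (hN : Nj (mu m b u) s) (f : Polynomial ℂ) (hf : f.degree < (r : WithBot ℕ))
    (h : ∀ k, Pc m b u s f k = 0) : f = 0 := by
  apply hN f hf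
  intro k
  have h1 : kap m b u k * Ic (mu m b u) s k (fun x => f.eval x) = 0 := h k
  exact (mul_eq_zero.1 h1).resolve_left (hk k)

/-- The matrix `x_(kj)`, `X v_k = ∑ x_(kj) v_j`. -/
def mt (e : Basis (Fin r) ℝ T.V) (X : Module.End ℝ T.V) : Matrix (Fin r) (Fin r) ℝ :=
  fun k j => e.repr (X (e k)) j

theorem mt_spec (e : Basis (Fin r) ℝ T.V) (X : Module.End ℝ T.V) (k : Fin r) :
    ∑ j, mt e X k j • e j = X (e k) := e.sum_repr (X (e k))

theorem mt_uniq (e : Basis (Fin r) ℝ T.V) (X : Module.End ℝ T.V) (x : Matrix (Fin r) (Fin r) ℝ)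
    (h : ∀ k, X (e k) = ∑ j, x k j • e j) : mt e X = x := by
  funext k j
  change e.repr (X (e k)) j = x k j
  rw [h, e.repr_sum_self]

theorem mt_add (e : Basis (Fin r) ℝ T.V) (X Y : Module.End ℝ T.V) :
    mt e (X + Y) = mt e X + mt e Y := by
  apply mt_uniq
  intro k
  rw [LinearMap.add_apply, ← mt_spec, ← mt_spec, ← Finset.sum_add_distrib]
  exact Finset.sum_congr rfl fun j _ => (add_smul _ _ _).symm

theorem mt_smul (e : Basis (Fin r) ℝ T.V) (c : ℝ) (X : Module.End ℝ T.V) :
    mt e (c • X) = c • mt e X := by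
  apply mt_uniq
  intro k
  rw [LinearMap.smul_apply, ← mt_spec, Finset.smul_sum]
  exact Finset.sum_congr rfl fun j _ => (smul_smul _ _ _)

theorem mt_mul (e : Basis (Fin r) ℝ T.V) (X Y : Module.End ℝ T.V) :
    mt e (X * Y) = mt e Y * mt e X := by
  apply mt_uniq
  intro k
  rw [Module.End.mul_apply, ← mt_spec, map_sum]
  have h1 : ∀ j, X (mt e Y k j • e j) = ∑ i, (mt e Y k j * mt e X j i) • e i := by
    intro j
    rw [map_smul, ← mt_spec e X j, Finset.smul_sum]
    exact Finset.sum_congr rfl fun i _ => (smul_smul _ _ _)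
  rw [Finset.sum_congr rfl fun j _ => h1 j, Finset.sum_comm]
  refine Finset.sum_congr rfl fun i _ => ?_
  rw [← Finset.sum_smul]
  rfl

theorem mt_inj (e : Basis (Fin r) ℝ T.V) {X Y : Module.End ℝ T.V} (h : mt e X = mt e Y) :
    X = Y := by
  apply e.ext
  intro k
  rw [← mt_spec, ← mt_spec, h]

/-- The operator `X̂`. -/
def hat (e : Basis (Fin r) ℝ T.V) (X : Module.End ℝ T.V) : Module.End ℂ (Fin r → ℂ) :=
  Matrix.toLin' ((mt e X).map Complex.ofReal)

theorem hat_apply (e : Basis (Fin r) ℝ T.V) (X : Module.End ℝ T.V) (w : Fin r → ℂ) (k : Fin r) :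
    hat e X w k = ∑ j, (mt e X k j : ℂ) * w j := rfl

theorem hat_frm (e : Basis (Fin r) ℝ T.V) (X : Module.End ℝ T.V) (a : Frm T) (k : Fin r) :
    hat e X (fun j => a (e j)) k = a (X (e k)) := by
  rw [hat_apply, ← mt_spec, map_sum]
  refine Finset.sum_congr rfl fun j _ => ?_
  rw [map_smul, Complex.real_smul]

theorem hat_add (e : Basis (Fin r) ℝ T.V) (X Y : Module.End ℝ T.V) :
    hat e (X + Y) = hat e X + hat e Y := by
  apply LinearMap.ext
  intro w
  funext k
  rw [LinearMap.add_apply, Pi.add_apply, hat_apply, hat_apply, hat_apply, mt_add,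
    ← Finset.sum_add_distrib]
  refine Finset.sum_congr rfl fun j _ => ?_
  rw [Matrix.add_apply, Complex.ofReal_add, add_mul]

theorem hat_smul (e : Basis (Fin r) ℝ T.V) (c : ℝ) (X : Module.End ℝ T.V) :
    hat e (c • X) = (c : ℂ) • hat e X := by
  apply LinearMap.ext
  intro w
  funext k
  rw [LinearMap.smul_apply, Pi.smul_apply, hat_apply, hat_apply, mt_smul, smul_eq_mul,
    Finset.mul_sum]
  refine Finset.sum_congr rfl fun j _ => ?_
  rw [Matrix.smul_apply, smul_eq_mul, Complex.ofReal_mul, mul_assoc]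

theorem hat_mul (e : Basis (Fin r) ℝ T.V) (X Y : Module.End ℝ T.V) :
    hat e (X * Y) = hat e Y * hat e X := by
  refine Eq.trans (congrArg (fun M => Matrix.toLin' M) ?_)
    (Matrix.toLin'_mul ((mt e Y).map Complex.ofReal) ((mt e X).map Complex.ofReal))
  rw [mt_mul]
  ext i j
  rw [Matrix.map_apply, Matrix.mul_apply, Matrix.mul_apply, Complex.ofReal_sum]
  refine Finset.sum_congr rfl fun k _ => ?_
  rw [Complex.ofReal_mul]
  rfl

theorem hat_sub (e : Basis (Fin r) ℝ T.V) (X Y : Module.End ℝ T.V) :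
    hat e (X - Y) = hat e X - hat e Y := by
  have h1 : X - Y = X + (-1 : ℝ) • Y := by
    rw [neg_smul, one_smul, sub_eq_add_neg]
  have h2 : (-1 : ℂ) • hat e Y = -hat e Y := neg_one_smul ℂ (hat e Y)
  rw [h1, hat_add, hat_smul, Complex.ofReal_neg, Complex.ofReal_one, h2, sub_eq_add_neg]

/-- Commutators of combinations are combinations of commutators. -/
theorem com_mem (e : Basis (Fin r) ℝ T.V) (h : Set (Module.End ℝ T.V))
    (A B : Module.End ℂ (Fin r → ℂ)) (hA : A ∈ Submodule.span ℂ (hat e '' h))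
    (hB : B ∈ Submodule.span ℂ (hat e '' h)) :
    A * B - B * A ∈ Submodule.span ℂ (hat e '' Com h) := by
  induction hA using Submodule.span_induction with
  | mem A hA =>
    obtain ⟨X, hX, rfl⟩ := hA
    induction hB using Submodule.span_induction with
    | mem B hB =>
      obtain ⟨Y, hY, rfl⟩ := hB
      rw [← hat_mul, ← hat_mul, ← hat_sub]
      exact Submodule.subset_span ⟨_, ⟨Y, hY, X, hX, rfl⟩, rfl⟩
    | zero =>
      rw [mul_zero, zero_mul, sub_zero]
      exact zero_mem _
    | add B B' _ _ h1 h2 =>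
      have h3 : hat e X * (B + B') - (B + B') * hat e X =
          (hat e X * B - B * hat e X) + (hat e X * B' - B' * hat e X) := by
        rw [mul_add, add_mul]
        abel
      rw [h3]
      exact add_mem h1 h2
    | smul c B _ h1 =>
      rw [mul_smul_comm, smul_mul_assoc, ← smul_sub]
      exact Submodule.smul_mem _ c h1
  | zero =>
    rw [mul_zero, zero_mul, sub_zero]
    exact zero_mem _
  | add A A' _ _ h1 h2 =>
    have h3 : (A + A') * B - B * (A + A') = (A * B - B * A) + (A' * B - B * A') := by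
      rw [mul_add, add_mul]
      abel
    rw [h3]
    exact add_mem h1 h2
  | smul c A _ h1 =>
    rw [mul_smul_comm, smul_mul_assoc, ← smul_sub]
    exact Submodule.smul_mem _ c h1

theorem hat_span (e : Basis (Fin r) ℝ T.V) (h : Set (Module.End ℝ T.V)) (X : Module.End ℝ T.V)
    (hX : X ∈ Submodule.span ℝ h) : hat e X ∈ Submodule.span ℂ (hat e '' h) := by
  induction hX using Submodule.span_induction with
  | mem X hX => exact Submodule.subset_span ⟨X, hX, rfl⟩
  | zero =>
    have h1 : hat e (0 : Module.End ℝ T.V) = 0 := by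
      have h2 := hat_smul e 0 0
      rwa [zero_smul, Complex.ofReal_zero, zero_smul] at h2
    rw [h1]
    exact zero_mem _
  | add X Y _ _ h1 h2 =>
    rw [hat_add]
    exact add_mem h1 h2
  | smul c X _ h1 =>
    rw [hat_smul]
    exact Submodule.smul_mem _ _ h1

/-- The real part. -/
theorem re_span (e : Basis (Fin r) ℝ T.V) (S : Set (Module.End ℝ T.V))
    (A : Module.End ℂ (Fin r → ℂ)) (hA : A ∈ Submodule.span ℂ (hat e '' S)) :
    ∀ c : ℂ, ∃ Y ∈ Submodule.span ℝ S, ∀ k j,
      mt e Y k j = (c * A (Pi.single j 1) k).re := by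
  induction hA using Submodule.span_induction with
  | mem A hA =>
    obtain ⟨X, hX, rfl⟩ := hA
    intro c
    refine ⟨c.re • X, Submodule.smul_mem _ _ (Submodule.subset_span hX), fun k j => ?_⟩
    rw [mt_smul, Matrix.smul_apply, hat_apply, Finset.sum_eq_single j, Pi.single_eq_same, mul_one,
      Complex.re_mul_ofReal]
    · rfl
    · intro i _ hi
      rw [Pi.single_eq_of_ne hi, mul_zero]
    · intro h
      exact absurd (Finset.mem_univ j) h
  | zero =>
    intro c
    refine ⟨0, zero_mem _, fun k j => ?_⟩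
    have h1 : mt e (0 : Module.End ℝ T.V) = 0 := by
      have h2 := mt_smul e 0 0
      rwa [zero_smul, zero_smul] at h2
    rw [h1, LinearMap.zero_apply, Pi.zero_apply, mul_zero]
    rfl
  | add A A' _ _ h1 h2 =>
    intro c
    obtain ⟨Y, hY, h3⟩ := h1 c
    obtain ⟨Y', hY', h4⟩ := h2 c
    refine ⟨Y + Y', add_mem hY hY', fun k j => ?_⟩
    rw [mt_add, Matrix.add_apply, h3, h4, LinearMap.add_apply, Pi.add_apply, mul_add,
      Complex.add_re]
  | smul d A _ h1 =>
    intro c
    obtain ⟨Y, hY, h3⟩ := h1 (c * d)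
    refine ⟨Y, hY, fun k j => ?_⟩
    rw [h3, LinearMap.smul_apply, Pi.smul_apply, smul_eq_mul, mul_assoc]

theorem real_span (e : Basis (Fin r) ℝ T.V) (S : Set (Module.End ℝ T.V))
    (X : Module.End ℝ T.V) (hX : hat e X ∈ Submodule.span ℂ (hat e '' S)) :
    X ∈ Submodule.span ℝ S := by
  obtain ⟨Y, hY, h1⟩ := re_span e S _ hX 1
  have h2 : X = Y := by
    apply mt_inj e
    funext k j
    rw [h1, one_mul, hat_apply, Finset.sum_eq_single j, Pi.single_eq_same, mul_one,
      Complex.ofReal_re]
    · intro i _ hi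
      rw [Pi.single_eq_of_ne hi, mul_zero]
    · intro h
      exact absurd (Finset.mem_univ j) h
  rw [h2]
  exact hY

/-- The matrix of `E`. -/
def mE (e : Basis (Fin r) ℝ T.V) (E : T.V →ₗ[ℝ] T.V →ₗ[ℝ] ℝ) : Matrix (Fin r) (Fin r) ℝ :=
  fun k l => E (e k) (e l)

theorem mE_skw (e : Basis (Fin r) ℝ T.V) (E : T.V →ₗ[ℝ] T.V →ₗ[ℝ] ℝ) (X : Module.End ℝ T.V)
    (hX : ∀ u v, E (X u) v + E u (X v) = 0) :
    mt e X * mE e E + mE e E * (mt e X).transpose = 0 := by
  ext k l
  rw [Matrix.add_apply, Matrix.mul_apply, Matrix.mul_apply, Matrix.zero_apply]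
  have h1 := hX (e k) (e l)
  rw [← mt_spec e X k, ← mt_spec e X l, map_sum, map_sum, LinearMap.sum_apply] at h1
  rw [← h1]
  congr 1
  · refine Finset.sum_congr rfl fun j _ => ?_
    rw [map_smul, LinearMap.smul_apply, smul_eq_mul]
    rfl
  · refine Finset.sum_congr rfl fun j _ => ?_
    rw [map_smul, smul_eq_mul, mul_comm]
    rfl

theorem mE_det (e : Basis (Fin r) ℝ T.V) (E : T.V →ₗ[ℝ] T.V →ₗ[ℝ] ℝ)
    (hE : ∀ v : T.V, v ≠ 0 → 0 < E (Complex.I • v) v) : IsUnit (mE e E).det := by
  rw [isUnit_iff_ne_zero]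
  intro h0
  obtain ⟨x, hx, h1⟩ := Matrix.exists_mulVec_eq_zero_iff.2 h0
  apply hx
  set w : T.V := ∑ l, x l • e l with hw
  have h2 : E.flip w = 0 := by
    apply e.ext
    intro k
    rw [LinearMap.flip_apply, hw, map_sum]
    have h3 := congrFun h1 k
    refine Eq.trans (Finset.sum_congr rfl fun l _ => ?_) h3
    rw [map_smul, smul_eq_mul, mul_comm]
    rfl
  have h5 : w = 0 := by
    by_contra h6
    have h7 := hE w h6
    have h8 : E (Complex.I • w) w = 0 := by
      rw [← LinearMap.flip_apply, h2]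
      rfl
    rw [h8] at h7
    exact lt_irrefl _ h7
  have h6 := Fintype.linearIndependent_iff.1 e.linearIndependent x (hw ▸ h5)
  funext k
  exact h6 k

/-- The form `ω`. -/
def om (F : Matrix (Fin r) (Fin r) ℝ) : (Fin r → ℂ) →ₗ[ℂ] (Fin r → ℂ) →ₗ[ℂ] ℂ :=
  Matrix.toLinearMap₂' ℂ (F.map Complex.ofReal)

theorem om_apply (F : Matrix (Fin r) (Fin r) ℝ) (v w : Fin r → ℂ) :
    om F v w = dotProduct v (Matrix.mulVec (F.map Complex.ofReal) w) :=
  Matrix.toLinearMap₂'_apply' _ _ _

theorem om_skw (e : Basis (Fin r) ℝ T.V) (F : Matrix (Fin r) (Fin r) ℝ) (X : Module.End ℝ T.V)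
    (h : (mt e X).transpose * F + F * mt e X = 0) : Skw (om F) (hat e X) := by
  intro v w
  rw [om_apply, om_apply]
  change dotProduct (Matrix.mulVec ((mt e X).map Complex.ofReal) v) _ +
    dotProduct v (Matrix.mulVec _ (Matrix.mulVec ((mt e X).map Complex.ofReal) w)) = 0
  have h1 : ((mt e X).map Complex.ofReal).transpose * F.map Complex.ofReal +
      F.map Complex.ofReal * (mt e X).map Complex.ofReal = 0 := by
    ext k l
    have h2 := congrFun (congrFun h k) l
    rw [Matrix.add_apply, Matrix.mul_apply, Matrix.mul_apply, Matrix.zero_apply] at h2 ⊢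
    have h3 := congrArg Complex.ofReal h2
    rw [Complex.ofReal_add, Complex.ofReal_sum, Complex.ofReal_sum, Complex.ofReal_zero] at h3
    rw [← h3]
    congr 1
    · exact Finset.sum_congr rfl fun j _ => (Complex.ofReal_mul _ _).symm
    · exact Finset.sum_congr rfl fun j _ => (Complex.ofReal_mul _ _).symm
  rw [Matrix.mulVec_mulVec, ← Matrix.vecMul_transpose, ← Matrix.dotProduct_mulVec,
    Matrix.mulVec_mulVec, ← dotProduct_add, ← Matrix.add_mulVec, h1, Matrix.zero_mulVec,
    dotProduct_zero]

/-- The inverse of the matrix of `E`. -/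
theorem inv_skw (M F x : Matrix (Fin r) (Fin r) ℝ) (h1 : F * M = 1) (h2 : M * F = 1)
    (h : x * M + M * x.transpose = 0) : x.transpose * F + F * x = 0 := by
  have h3 : F * (x * M + M * x.transpose) * F = 0 := by
    rw [h, mul_zero, zero_mul]
  rw [mul_add, add_mul] at h3
  have h4 : F * (x * M) * F = F * x := by
    rw [← mul_assoc, mul_assoc, h2, mul_one]
  have h5 : F * (M * x.transpose) * F = x.transpose * F := by
    rw [← mul_assoc, h1, one_mul]
  rw [h4, h5, add_comm] at h3
  exact h3

theorem om_smp (M F : Matrix (Fin r) (Fin r) ℝ) (h1 : F * M = 1) (h2 : M * F = 1)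
    (h : M.transpose = -M) : Smp (om F) := by
  have h3 : F.transpose = -F := by
    have h4 : F.transpose * M.transpose = 1 := by
      rw [← Matrix.transpose_mul, h2, Matrix.transpose_one]
    rw [h, mul_neg] at h4
    have h5 : -(F.transpose * M) * F = F := by
      rw [h4, one_mul]
    rw [neg_mul, mul_assoc, h2, mul_one] at h5
    rw [← h5, neg_neg]
    rw [h5]
  have h4 : (F.map Complex.ofReal).transpose = -F.map Complex.ofReal := by
    ext i j
    have h5 := congrFun (congrFun h3 i) j
    have h6 := congrArg Complex.ofReal h5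
    rw [Matrix.neg_apply, Complex.ofReal_neg] at h6
    exact h6
  refine ⟨fun v => ?_, fun v hv => ?_⟩
  · have h5 : om F v v = -om F v v := by
      rw [om_apply]
      conv_lhs => rw [Matrix.dotProduct_mulVec, ← Matrix.mulVec_transpose, h4, dotProduct_comm,
        Matrix.neg_mulVec, dotProduct_neg]
    have h6 : (2 : ℂ) * om F v v = 0 := by linear_combination h5
    exact (mul_eq_zero.1 h6).resolve_left two_ne_zero
  · have h5 : Matrix.vecMul v (F.map Complex.ofReal) = 0 := by
      apply dotProduct_eq_zero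
      intro w
      have h6 := hv w
      rw [om_apply, Matrix.dotProduct_mulVec] at h6
      exact h6
    have h6 : F.map Complex.ofReal * M.map Complex.ofReal = 1 := by
      have h7 : (F * M).map Complex.ofRealHom = F.map Complex.ofRealHom * M.map Complex.ofRealHom :=
        Matrix.map_mul
      rw [h1, Matrix.map_one _ (map_zero _) (map_one _)] at h7
      exact h7.symm
    have h7 := congrArg (fun z => Matrix.vecMul z (M.map Complex.ofReal)) h5
    simp only [Matrix.vecMul_vecMul, h6, Matrix.vecMul_one, Matrix.zero_vecMul] at h7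
    exact h7

end hTr_aux

open hTr_aux in
theorem thTr : S_Sg → S_cKap → S_cPv → S_hTr := by
  classical
  intro _ hKap _ T r s hs hc hNj v hvL hinj hmat hli hsp hH
  have hA : Admc 2 (fun _ => 1) 1 s := ⟨hs, hc, by norm_num, by norm_num⟩
  have hP := pinj (fun k => ((hKap 2 r _ 1 s hA).2.2.2 k).1) hNj
  obtain ⟨hH1, _⟩ := hH
  -- the conjugates of the forms of type (1,0)
  have hcon : ∀ g : Polynomial ℂ, g.degree < (sg 2 r (fun _ => 1) 1 : WithBot ℕ) →
      ∃ c : Frm T, (∀ w, c (Complex.I • w) = -Complex.I * c w) ∧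
        ∀ k, c (v k) = star (Pc 2 (fun _ => 1) 1 s g) k := by
    intro g hg
    obtain ⟨a, ha, hak⟩ := hH1 g hg
    refine ⟨Complex.conjLIE.toLinearEquiv.toLinearMap ∘ₗ a, fun w => ?_, fun k => ?_⟩
    · change (starRingEnd ℂ) (a (Complex.I • w)) = -Complex.I * (starRingEnd ℂ) (a w)
      rw [ha, map_mul, Complex.conj_I]
    · change (starRingEnd ℂ) (a (v k)) = _
      rw [hak]
      rfl
  refine ⟨?_, ?_⟩
  · intro f g hf hg hfg
    obtain ⟨a, ha, hak⟩ := hH1 f hf
    obtain ⟨c, hcI, hck⟩ := hcon g hg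
    have h0 : a + c = 0 := by
      refine hinj (a + c) fun k => ?_
      rw [LinearMap.add_apply, hak, hck]
      exact congrFun hfg k
    have h1 : ∀ w, a w = 0 := by
      intro w
      have h2 : a w + c w = 0 := by
        have := congrArg (fun z : Frm T => z w) h0
        exact this
      have h3 : a (Complex.I • w) + c (Complex.I • w) = 0 := by
        have := congrArg (fun z : Frm T => z (Complex.I • w)) h0
        exact this
      rw [ha, hcI] at h3
      have h4 : Complex.I * (2 * a w) = 0 := by linear_combination h3 + Complex.I * h2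
      rcases mul_eq_zero.1 h4 with h5 | h5
      · exact absurd h5 Complex.I_ne_zero
      · exact (mul_eq_zero.1 h5).resolve_left two_ne_zero
    refine ⟨hP f (deg_lt hf) fun k => ?_, hP g (deg_lt hg) fun k => ?_⟩
    · rw [← hak, h1]
    · have h2 : star (Pc 2 (fun _ => 1) 1 s g) k = 0 := by
        have h3 := congrFun hfg k
        rw [Pi.add_apply, ← hak, h1, zero_add] at h3
        exact h3
      have h4 : star (Pc 2 (fun _ => 1) 1 s g k) = 0 := h2
      exact star_eq_zero.1 h4
  · intro hbad E hEa hEp h hh X hX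
    obtain ⟨e, he⟩ : ∃ e : Basis (Fin r) ℝ T.V, ∀ k, e k = v k :=
      ⟨Basis.mk hli hsp.ge, fun k => Basis.mk_apply hli hsp.ge k⟩
    set g : Submodule ℂ (Module.End ℂ (Fin r → ℂ)) := Submodule.span ℂ (hat e '' h) with hg
    -- the form
    have hdet := mE_det e E hEp
    set F : Matrix (Fin r) (Fin r) ℝ := (mE e E)⁻¹ with hF
    have hF1 : F * mE e E = 1 := Matrix.nonsing_inv_mul _ hdet
    have hF2 : mE e E * F = 1 := Matrix.mul_nonsing_inv _ hdet
    have hsk : ∀ Y : Module.End ℝ T.V, (∀ u v, E (Y u) v + E u (Y v) = 0) →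
        Skw (om F) (hat e Y) := fun Y hY =>
      om_skw e F Y (inv_skw _ F _ hF1 hF2 (mE_skw e E Y hY))
    have hsmp : Smp (om F) := by
      apply om_smp _ F hF1 hF2
      ext k l
      exact hEa (e l) (e k)
    have hgs : ∀ A ∈ g, Skw (om F) A := by
      intro A hA
      induction hA using Submodule.span_induction with
      | mem A hA =>
        obtain ⟨Y, hY, rfl⟩ := hA
        exact hsk Y (hh.skw Y hY)
      | zero =>
        intro a b
        rw [LinearMap.zero_apply, LinearMap.zero_apply, map_zero, map_zero]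
        simp
      | add A B _ _ h1 h2 =>
        intro a b
        have h3 := h1 a b
        have h4 := h2 a b
        rw [LinearMap.add_apply, LinearMap.add_apply, map_add, map_add, LinearMap.add_apply]
        linear_combination h3 + h4
      | smul c A _ h1 =>
        intro a b
        have h3 := h1 a b
        rw [LinearMap.smul_apply, LinearMap.smul_apply, map_smul, map_smul, LinearMap.smul_apply,
          smul_eq_mul, smul_eq_mul]
        linear_combination c * h3
    -- commutators
    have hcm : Com h ⊆ h := by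
      rintro _ ⟨A, hA, B, hB, rfl⟩
      exact hh.lie.br A hA B hB
    have hgcom : ∀ A ∈ g, ∀ B ∈ g, A * B - B * A ∈ g := fun A hA B hB =>
      Submodule.span_mono (Set.image_mono hcm) (com_mem e h A B hA hB)
    -- the generators
    have hgen : ∃ (n : ℕ) (X : Fin n → Module.End ℂ (Fin r → ℂ)),
        (∀ i k l, IsAlgebraic ℚ (X i (Pi.single k 1) l)) ∧ g = Submodule.span ℂ (Set.range X) := by
      have h2 : (Submodule.span ℂ (hat e '' h)).FG := IsNoetherian.noetherian _
      obtain ⟨S, hS1, hS2⟩ := Submodule.fg_span_iff_fg_span_finset_subset _ |>.1 h2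
      refine ⟨S.card, fun i => (S.equivFin.symm i : Module.End ℂ (Fin r → ℂ)), ?_, ?_⟩
      · intro i k l
        obtain ⟨Y, hY, hB⟩ := hS1 (S.equivFin.symm i).2
        change IsAlgebraic ℚ ((S.equivFin.symm i : Module.End ℂ (Fin r → ℂ)) (Pi.single k 1) l)
        rw [← hB]
        obtain ⟨N, x, hN, hx⟩ := hmat Y (hh.rat Y hY)
        have hN' : (N : ℝ) ≠ 0 := Int.cast_ne_zero.2 hN
        have h3 : mt e Y = fun k j => (N : ℝ)⁻¹ * (x k j : ℝ) := by
          apply mt_uniq
          intro k
          have h4 := hx k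
          rw [← he] at h4
          have h5 : (N : ℝ) • Y (e k) = ∑ j, (x k j : ℝ) • e j := by
            rw [Int.cast_smul_eq_zsmul, h4]
            refine Finset.sum_congr rfl fun j _ => ?_
            rw [Int.cast_smul_eq_zsmul, he]
          have h6 : Y (e k) = (N : ℝ)⁻¹ • ∑ j, (x k j : ℝ) • e j := by
            rw [← h5, smul_smul, inv_mul_cancel₀ hN', one_smul]
          rw [h6, Finset.smul_sum]
          exact Finset.sum_congr rfl fun j _ => smul_smul _ _ _
        have h7 : hat e Y (Pi.single k 1) l = algebraMap ℚ ℂ ((N : ℚ)⁻¹ * (x l k : ℚ)) := by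
          rw [hat_apply, Finset.sum_eq_single k, Pi.single_eq_same, mul_one, h3]
          · push_cast
            simp
          · intro i _ hi
            rw [Pi.single_eq_of_ne hi, mul_zero]
          · intro h
            exact absurd (Finset.mem_univ k) h
        rw [h7]
        exact isAlgebraic_algebraMap _
      · rw [hg, hS2]
        congr 1
        ext Y
        constructor
        · intro hY
          refine ⟨S.equivFin ⟨Y, hY⟩, ?_⟩
          change (S.equivFin.symm (S.equivFin ⟨Y, hY⟩) : Module.End ℂ (Fin r → ℂ)) = Y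
          rw [Equiv.symm_apply_apply]
        · rintro ⟨i, rfl⟩
          exact (S.equivFin.symm i).2
    -- the operator J
    have hJ : IsJc 2 (fun _ => 1) 1 s (hat e (mulI T)) := by
      have h1 : ∀ a : Frm T, (fun k => a (v k)) = fun k => a (e k) := by
        intro a
        funext k
        rw [he]
      refine ⟨fun f hf => ?_, fun f hf => ?_⟩
      · obtain ⟨a, ha, hak⟩ := hH1 f hf
        have h2 : Pc 2 (fun _ => 1) 1 s f = fun k => a (e k) := by
          rw [← h1]
          funext k
          rw [hak]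
        rw [h2]
        funext k
        rw [hat_frm]
        exact ha (e k)
      · obtain ⟨a, ha, hak⟩ := hcon f hf
        have h2 : star (Pc 2 (fun _ => 1) (2 - 1) s f) = fun k => a (e k) := by
          rw [← h1]
          funext k
          rw [hak]
        rw [h2]
        funext k
        rw [hat_frm]
        exact ha (e k)
    -- `g` is not bad
    have h1 : hat e X ∈ Submodule.span ℂ {Y | ∃ A ∈ g, ∃ B ∈ g, Y = A * B - B * A} := by
      by_contra hn
      exact hbad ⟨g, ⟨hgen, hgcom, om F, hsmp, hgs, hat e X, hsk X hX, hn⟩, hat e (mulI T),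
        hat_span e h _ hh.J, hJ⟩
    apply real_span e
    refine Submodule.span_le.2 ?_ h1
    rintro _ ⟨A, hA, B, hB, rfl⟩
    exact com_mem e h A B hA hB

end SEH
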