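import Pool.Agent.Lib.SE.Hyp.Asm
import Pool.Agent.Lib.SE.Hyp.Kap
import Pool.Agent.Lib.SE.Hyp.Sg
import Pool.Agent.Lib.SE.Hyp.cKap
import Pool.Agent.Lib.SE.Hyp.cPv
import Pool.Agent.Lib.SE.Hyp.cJx
import Pool.Agent.Lib.SE.Hyp.cRk1
import Pool.Agent.Lib.SE.Hyp.cDj
import Pool.Agent.Lib.SE.Hyp.cCj
import Pool.Agent.Lib.SE.Hyp.cLoop
import Pool.Agent.Lib.SE.Hyp.hR
import Pool.Agent.Lib.SE.Hyp.hKey
import Pool.Agent.Lib.SE.Hyp.hBa
import Pool.Agent.Lib.SE.Hyp.hHod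
import Pool.Agent.Lib.SE.Hyp.hEB
import Pool.Agent.Lib.SE.Hyp.hTr
import Pool.Agent.Lib.SE.Big.Main3

/-!
# PROJECT SE-S: very general hyperelliptic curves, the theorem without hypotheses (helper64)
-/

set_option autoImplicit false

open Module

noncomputable section

namespace SEH

open HC HC.E HC.SE SEB

theorem mKap : S_cKap := tcKap tKap

theorem mPv : S_cPv := tcPv tcI mKap

theorem mJx : S_cJx := tcJx mPv tSg

theorem mRk1 : S_cRk1 := tcRk1 mPv SEB.cE' mJx mKap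

theorem mKey : S_hKey := thKey thR tSg mPv mJx mRk1

theorem mDj : S_cDj := tcDj mPv mKap SEB.cD' mJx

theorem mCj : S_cCj := tcCj tcI mKap mPv SEB.cC' mJx

theorem modsH : ModsH where
  Sg := tSg
  Kap := mKap
  N := SEB.cN'
  AI := SEB.cAI'
  Ba := thBa mKap SEB.cN' mJx mKey mDj mCj
  Loop := tcLoop tcBr SEB.cLat' (tcCa tcBr) (tcCb tcBr tcI)
  Hod := thHod tSg mKap mPv
  EB := thEB
  Tr := thTr tSg mKap mPv
  Pm := SEB.tcPm
  So := SEB.tcSo

/-- Very general hyperelliptic Jacobians have Hodge Lie algebra `sp`. -/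
theorem thHyp : HypC := hypC modsH

end SEH
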