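import Pool.Agent.Lib.SE.Big.VG4

/-!
# PROJECT SE-S: very general hyperelliptic curves (helper64)

The statements of SE/Big/VG3.lean with `2 ≤ m` instead of `3 ≤ m`. The proofs (`SE/Hyp/*.lean`) are
copies of those in `SE/Big`.
-/

set_option autoImplicit false

open Module MeasureTheory Topology

noncomputable section

namespace SEH

open HC HC.E HC.SE SEB

/-- As `HC.SE.IsCov`, with `2 ≤ m`. -/
def IsCov (m : ℕ) {r : ℕ} (s : Fin (r + 1) → ℂ) (b : Fin (r + 1) → ℕ) : Prop :=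
  2 ≤ m ∧ Function.Injective s ∧ (∀ j, ¬ m ∣ b j) ∧ ¬ m ∣ ∑ j, b j ∧
    ∀ d, d ∣ m → (∀ j, d ∣ b j) → d = 1

/-- SIGNATURES. `sg u + sg (m - u) = r`. PROOF. Let `S = ∑_j (u b_j mod m)`; no `u b_j` is
`0 mod m`, so `∑_j ((m - u) b_j mod m) = m (r + 1) - S`; `m ∤ S` (as `m ∤ ∑ b_j`). The number of
`i < r` with `m i + S < m r` is `r - ⌊S/m⌋`, and `r - ⌊(m (r+1) - S)/m⌋ = ⌊S/m⌋`. -/
def S_Sg : Prop :=
  ∀ (m r : ℕ) (s : Fin (r + 1) → ℂ) (b : Fin (r + 1) → ℕ), IsCov m s b →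
    ∀ u < m, u.Coprime m → sg m r b u + sg m r b (m - u) = r

/-- The real points `s`, the numbers `b_j` and the character `u` are admissible. -/
def Adm (m : ℕ) {r : ℕ} (b : Fin (r + 1) → ℕ) (u : ℕ) (s : Fin (r + 1) → ℝ) : Prop :=
  StrictMono s ∧ IsCov m (fun j => (s j : ℂ)) b ∧ u < m ∧ u.Coprime m

/-- THE CONSTANTS. PROOF. `1 ≤ nn < m` (`m ∤ u b_j`); roots of unity. -/
def S_Kap : Prop :=
  ∀ (m r : ℕ) (b : Fin (r + 1) → ℕ) (u : ℕ) (s : Fin (r + 1) → ℝ), Adm m b u s →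
    (∀ j, 1 ≤ nn m b u j ∧ nn m b u j < m ∧ nn m b (m - u) j = m - nn m b u j) ∧
    Exq (mu m b u) ∧ (∀ n : ℤ, ∑ j, mu m b u j ≠ n) ∧
    ∀ k, kap m b u k ≠ 0 ∧ IsAlgebraic ℚ (kap m b u k)

/-- The points `s`, the numbers `b_j` and the character `u` are admissible. -/
def Admc (m : ℕ) {r : ℕ} (b : Fin (r + 1) → ℕ) (u : ℕ) (s : Fin (r + 1) → ℂ) : Prop :=
  Inc s ∧ IsCov m s b ∧ u < m ∧ u.Coprime m

/-- THE CONSTANTS. PROOF. `S_Kap` (`tKap`) for the real points `s_j = j` (`IsCov` for them has the same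
conditions on `m`, `b`). -/
def S_cKap : Prop :=
  ∀ (m r : ℕ) (b : Fin (r + 1) → ℕ) (u : ℕ) (s : Fin (r + 1) → ℂ), Admc m b u s →
    (∀ j, 1 ≤ nn m b u j ∧ nn m b u j < m ∧ nn m b (m - u) j = m - nn m b u j) ∧
    Exq (mu m b u) ∧ (∀ n : ℤ, ∑ j, mu m b u j ≠ n) ∧
    ∀ k, kap m b u k ≠ 0 ∧ IsAlgebraic ℚ (kap m b u k)

/-- LINEARITY. From `S_cI`, `S_cKap`. PROOF. Integrability: the weight times a function which is
continuous on `[0,1]`. -/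
def S_cPv : Prop :=
  ∀ (m r : ℕ) (b : Fin (r + 1) → ℕ) (u : ℕ) (s : Fin (r + 1) → ℂ), Admc m b u s →
    (∀ f g, Pc m b u s (f + g) = Pc m b u s f + Pc m b u s g) ∧
    ∀ (c : ℂ) (f : Polynomial ℂ), Pc m b u s (Polynomial.C c * f) = c • Pc m b u s f

/-- EXISTENCE AND PROPERTIES OF `J`. From `S_cPv`, `S_Sg`. PROOF. As `S_Jx` (SE/Big/Jx.lean). -/
def S_cJx : Prop :=
  ∀ (m r : ℕ) (b : Fin (r + 1) → ℕ) (u : ℕ) (s : Fin (r + 1) → ℂ), Admc m b u s → NDc m b u s →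
    ∃ J, IsJc m b u s J ∧ (∀ J', IsJc m b u s J' → J' = J) ∧ J * J = -1 ∧
      (∀ v, J v = Complex.I • v ↔
        ∃ f : Polynomial ℂ, f.degree < (sg m r b u : WithBot ℕ) ∧ v = Pc m b u s f) ∧
      (∀ v, J v = -Complex.I • v ↔ ∃ g : Polynomial ℂ,
        g.degree < (sg m r b (m - u) : WithBot ℕ) ∧ v = star (Pc m b (m - u) s g)) ∧
      finrank ℂ (LinearMap.ker (J - Complex.I • (1 : Module.End ℂ (Fin r → ℂ)))) = sg m r b u ∧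
      finrank ℂ (LinearMap.ker (J + Complex.I • (1 : Module.End ℂ (Fin r → ℂ)))) =
        sg m r b (m - u)

/-- THE RANK ONE OPERATORS at the point `s_j`. From `S_cPv`, `S_cE`, `S_cJx`, `S_cKap`. PROOF. As `S_Rk1`
(SE/Big/Rk1.lean), with `Nj` for the injectivity of the period vectors in degree `< r`. -/
def S_cRk1 : Prop :=
  ∀ (m r : ℕ) (b : Fin (r + 1) → ℕ) (u : ℕ) (s : Fin (r + 1) → ℂ), Admc m b u s → NDc m b u s →
    Nj (mu m b u) s →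
    ∀ J, IsJc m b u s J → ∃ ξ : Fin (r + 1) → (Fin r → ℂ), (∀ j, J (ξ j) = -Complex.I • ξ j) ∧
      (∀ j, ∃ a : Polynomial ℂ, ∀ f : Polynomial ℂ, f.degree < (sg m r b u : WithBot ℕ) →
        Complex.I • Pc m b u s (Thc (mu m b u) s a f) - J (Pc m b u s (Thc (mu m b u) s a f)) =
          f.eval (s j) • ξ j) ∧
      ∀ c : Fin (r + 1) → ℂ, (Finset.univ.filter fun j => c j ≠ 0).card ≤ sg m r b (m - u) →
        ∑ j, c j • ξ j = 0 → c = 0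

/-- DERIVATIVE OF `J`. From `S_cPv`, `S_cKap`, `S_cD`, `S_cJx`. PROOF. As `S_Dj` (SE/Big/Dj.lean): real `ε`
(`HasDerivAt.comp_ofReal`), `s_ε = s + ε a(s)`. -/
def S_cDj : Prop :=
  ∀ (m r : ℕ) (b : Fin (r + 1) → ℕ) (u : ℕ) (U : Set (Fin (r + 1) → ℂ)), IsOpen U →
    (∀ s ∈ U, Admc m b u s ∧ NDc m b u s) → ∀ g : Submodule ℂ (Module.End ℂ (Fin r → ℂ)),
    (∀ s ∈ U, ∀ J, IsJc m b u s J → J ∈ g) → ∀ s ∈ U, ∀ J, IsJc m b u s J →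
    ∀ a : Polynomial ℂ, ∃ D ∈ g, IsDJc m b u s J a D

/-- CLOSEDNESS. From `S_cI`, `S_cKap`, `S_cPv`, `S_cC`, `S_cJx`. PROOF. As `S_Cj` (SE/Big/Cj.lean). -/
def S_cCj : Prop :=
  ∀ (m r : ℕ) (b : Fin (r + 1) → ℕ) (u : ℕ),
    IsOpen {s : Fin (r + 1) → ℂ | Admc m b u s ∧ NDc m b u s} ∧
    ∀ g : Submodule ℂ (Module.End ℂ (Fin r → ℂ)), ∃ C : Set (Fin (r + 1) → ℂ), IsClosed C ∧
      ∀ s, Admc m b u s → NDc m b u s → (s ∈ C ↔ ∀ J, IsJc m b u s J → J ∈ g)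

/-- THE LOOPS `v_k`. From `S_cBr`, `S_cLat`, `S_cCa`, `S_cCb`. PROOF. As `S_LoopF` (SE/Big/LoopF.lean,
SE/Big/Loop.lean). -/
def S_cLoop : Prop :=
  ∀ (T : AV) (m r : ℕ) (s : Fin (r + 1) → ℂ) (b : Fin (r + 1) → ℕ), Inc s →
    IsCov m s b → ∀ (N : New T m s b),
    ∃ v : Fin r → T.V, (∀ k, v k ∈ T.L) ∧ ∀ u < m, u.Coprime m → ∀ (f : Polynomial ℂ)
      (B : T.V →ₗ[ℂ] ℂ), (∀ w, B (N.Z w) = Complex.exp (2 * Real.pi * Complex.I / m) ^ u * B w) →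
      (∀ x ∉ N.γ.S, ∀ y, N.γ.P (x, y) = 0 →
        B (N.γ.ω x y) = f.eval x * y ^ u / ∏ j, (x - s j) ^ (1 + u * b j / m)) →
      ∀ k, B (v k) = Pc m b u s f k

end SEH
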