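import Pool.Agent.Lib.SE.Hyp.Spec

/-!
# PROJECT SE-S: very general hyperelliptic curves, part 2 (helper64)

For all complex `f` of odd degree `2 g + 1 ≥ 3` outside a meagre set the Hodge Lie algebra of the Jacobian of
`y ^ 2 = f(x)` is `sp(H_1)`: the commutators of every rational Lie algebra of skew endomorphisms whose real
span contains the multiplication by `i` span `sp(E)` (`SpB`).

Every module: file `SE/Hyp/Xyz.lean` (`S_hXyz`: file `hXyz.lean`), `theorem tXyz : S_Xyz`, namespace `SEH`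
(after it `open HC HC.E HC.SE SEB`), import `Pool.Agent.Lib.SE.Hyp.Spec2` and the proved modules you want
(`SE/Hyp/cJx.lean, cRk1.lean, cDj.lean, cCj.lean, cPv.lean, cKap.lean, Kap.lean, Sg.lean, cLoop.lean` are the
modules of `SE/Big` with `2 ≤ m` instead of `3 ≤ m`; `SEH.IsCov`, `SEH.Admc`, `SEH.S_cJx` ... are meant
everywhere). If the docstring says `From S_A, S_B` and these are not hypotheses in the statement itself,
the theorem is `tXyz : S_A → S_B → S_Xyz`. Auxiliary lemmas in `namespace SEH.Xyz_aux`.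
-/

set_option autoImplicit false

open Module MeasureTheory Topology

noncomputable section

namespace SEH

open HC HC.E HC.SE SEB

/-! ## Algebra -/

/-- `Y` is skew for `ω`. -/
def Skw {V : Type} [AddCommGroup V] [Module ℂ V] (ω : V →ₗ[ℂ] V →ₗ[ℂ] ℂ)
    (Y : Module.End ℂ V) : Prop := ∀ v w, ω (Y v) w + ω v (Y w) = 0

/-- `ω` is a symplectic form. -/
def Smp {V : Type} [AddCommGroup V] [Module ℂ V] (ω : V →ₗ[ℂ] V →ₗ[ℂ] ℂ) : Prop :=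
  (∀ v, ω v v = 0) ∧ ∀ v, (∀ w, ω v w = 0) → v = 0

/-- SYMPLECTIC RANK ONE NILPOTENTS. PROOF. Write `s(a, b) = a ⊗ ω(b, ·) + b ⊗ ω(a, ·)` (`a ⊗ φ` is
`φ.smulRight a`); `s` is bilinear and symmetric, and for `X` skew:
(1) `[X, s(a, b)] = s(X a, b) + s(a, X b)`. A skew `φ.smulRight x`, `φ ≠ 0`, `x ≠ 0`: `φ = c ω(x, ·)`,
`c ≠ 0` (`φ(v) ω(x, w) = φ(w) ω(x, v)`, choose `w` with `ω(x, w) = 1`). So, after scaling `y`:
`s(x, x) ∈ g`, `s(y, y) ∈ g`, `ω(x, y) = 1` (`φ y ≠ 0`). By (1): `[s(x, x), s(y, y)]` is a nonzero multiple of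
`h = s(x, y)`, so `h ∈ g`; `h x = - x`, `h y = y`, `h = 0` on `V₀ = {v | ω(x, v) = ω(y, v) = 0}`, and
`V = ℂ x ⊕ ℂ y ⊕ V₀`. So `ad h` acts on `End V` with eigenvalues in `{0, ± 1, ± 2}`, and the components `X_k`
of `X ∈ g` (`[h, X_k] = k X_k`) are polynomials in `ad h` applied to `X`: they are in `g` and skew.
(2) `X₁` (eigenvalue `1`) is `s(y, v)` up to a factor `- 1` or so, `v ∈ V₀`; `X_(-1)` is `s(x, v')`; `X₀`
preserves `ℂ x`, `ℂ y`, `V₀`; `X₂ x ∈ ℂ y`, `X₂ y = 0`, `X₂ V₀ = 0`, `X_(-2)` similarly.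
Let `V₁ = {v ∈ V₀ | s(x, v) ∈ g}`. By (1) with `s(y, y)` (`s(x, x)`): `s(x, v) ∈ g ↔ s(y, v) ∈ g` for
`v ∈ V₀`. `U = ℂ x + ℂ y + V₁` is stable under `g`: `X₁`, `X_(-1)` map `x`, `y` to multiples of elements of
`V₁` and `V₁` to `ℂ x`, `ℂ y`; `[X₀, s(x, v)] = s(X₀ x, v) + s(x, X₀ v)`, so `X₀ V₁ ⊆ V₁`. `U ≠ 0`, so
`U = V`, `V₁ = V₀`. `[s(x, v), s(y, w)]` (`v, w ∈ V₀`) is by (1) `± s(v, w) + (a multiple of) s(x, y)`. So
`s(a, b) ∈ g` for all `a, b`, and, `D` = the span of the commutators of `g`: `s(x, x), s(y, y) ∈ D`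
(`[h, ·]`), `s(x, y) ∈ D`, `s(x, v), s(y, v) ∈ D` (`[h, ·]`), `s(v, w) ∈ D`. So all `s(a, b) ∈ D`.
(3) `Y` skew is a combination of the `s(a, b)`: `e_i` a basis, `e_i*` with `ω(e_i*, e_j) = δ_(ij)`. Then
`v = ∑ ω(e_i*, v) e_i = - ∑ ω(e_i, v) e_i*`, and `∑_i s(Y e_i, e_i*) = 2 Y`. -/
def S_hR : Prop :=
  ∀ (V : Type) [AddCommGroup V] [Module ℂ V] [FiniteDimensional ℂ V]
    (g : Submodule ℂ (Module.End ℂ V)) (ω : V →ₗ[ℂ] V →ₗ[ℂ] ℂ) (x y : V) (φ ψ : Module.Dual ℂ V),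
    Smp ω → (∀ X ∈ g, Skw ω X) → (∀ X ∈ g, ∀ Y ∈ g, X * Y - Y * X ∈ g) →
    φ y ≠ 0 → ψ x ≠ 0 → φ.smulRight x ∈ g → ψ.smulRight y ∈ g →
    (∀ U : Submodule ℂ V, (∀ X ∈ g, ∀ u ∈ U, X u ∈ U) → U = ⊥ ∨ U = ⊤) →
    ∀ Y : Module.End ℂ V, Skw ω Y →
      Y ∈ Submodule.span ℂ {Y | ∃ A ∈ g, ∃ B ∈ g, Y = A * B - B * A}

/-! ## Key and Baire -/

/-- KEY. From `S_hR`, `S_Sg`, `S_cPv`, `S_cJx`, `S_cRk1` (all of `SEH`). PROOF. As `SEB.S_dKey`
(SE/Big/dKey.lean; `SE/Big/cKey.lean` for the auxiliary lemmas, which do not use `IsCov`, or copy them), with `S_hR` in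
place of `S_R1S`. -/
def S_hKey : Prop :=
  ∀ (m r : ℕ) (b : Fin (r + 1) → ℕ) (u : ℕ) (s : Fin (r + 1) → ℂ), Admc m b u s → NDc m b u s →
    Nj (mu m b u) s → Nj (mu m b (m - u)) s →
    0 < sg m r b u → 0 < sg m r b (m - u) →
    ∀ (g : Submodule ℂ (Module.End ℂ (Fin r → ℂ))) (J : Module.End ℂ (Fin r → ℂ))
      (ω : (Fin r → ℂ) →ₗ[ℂ] (Fin r → ℂ) →ₗ[ℂ] ℂ), Smp ω → (∀ X ∈ g, Skw ω X) →
    (∀ X ∈ g, ∀ Y ∈ g, X * Y - Y * X ∈ g) → IsJc m b u s J → J ∈ g →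
    (∀ a : Polynomial ℂ, ∃ D ∈ g, IsDJc m b u s J a D) →
    ∀ Y : Module.End ℂ (Fin r → ℂ), Skw ω Y →
      Y ∈ Submodule.span ℂ {Y | ∃ A ∈ g, ∃ B ∈ g, Y = A * B - B * A}

/-- `g` is spanned by matrices with algebraic entries, closed under commutators, skew for a
symplectic form `ω`, and its commutators do not span `sp(ω)`. -/
def Bads {r : ℕ} (g : Submodule ℂ (Module.End ℂ (Fin r → ℂ))) : Prop :=
  (∃ (n : ℕ) (X : Fin n → Module.End ℂ (Fin r → ℂ)),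
    (∀ i k l, IsAlgebraic ℚ (X i (Pi.single k 1) l)) ∧ g = Submodule.span ℂ (Set.range X)) ∧
  (∀ X ∈ g, ∀ Y ∈ g, X * Y - Y * X ∈ g) ∧
  ∃ ω : (Fin r → ℂ) →ₗ[ℂ] (Fin r → ℂ) →ₗ[ℂ] ℂ, Smp ω ∧ (∀ X ∈ g, Skw ω X) ∧
    ∃ Y : Module.End ℂ (Fin r → ℂ), Skw ω Y ∧
      Y ∉ Submodule.span ℂ {Y | ∃ A ∈ g, ∃ B ∈ g, Y = A * B - B * A}

/-- BAIRE. From `S_cKap`, `SEB.S_cN`, `S_cJx`, `S_hKey`, `S_cDj`, `S_cCj`. PROOF. As `SEB.S_cBa2`
(SE/Big/cBa2.lean), with `Bads`, `S_hKey` in place of `Bad`, `S_cKey`. -/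
def S_hBa : Prop :=
  ∀ (m r : ℕ) (b : Fin (r + 1) → ℕ) (u : ℕ), 0 < sg m r b u → 0 < sg m r b (m - u) →
    IsMeagre {s : Fin (r + 1) → ℂ | Admc m b u s ∧ NDc m b u s ∧
      ∃ g, Bads g ∧ ∃ J ∈ g, IsJc m b u s J}

/-! ## The hyperelliptic Jacobian (`m = 2`, `b = 1`, `u = 1`) -/

/-- The forms of type `(1,0)` in coordinates. -/
def Hds (T : AV) (r : ℕ) (s : Fin (r + 1) → ℂ) (v : Fin r → T.V) : Prop :=
  (∀ f : Polynomial ℂ, f.degree < (sg 2 r (fun _ => 1) 1 : WithBot ℕ) →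
    ∃ a : Frm T, (∀ w, a (Complex.I • w) = Complex.I * a w) ∧
      ∀ k, a (v k) = Pc 2 (fun _ => 1) 1 s f k) ∧
  ∀ a : Frm T, (∀ w, a (Complex.I • w) = Complex.I * a w) →
    ∃ f : Polynomial ℂ, f.degree < (sg 2 r (fun _ => 1) 1 : WithBot ℕ) ∧
      ∀ k, a (v k) = Pc 2 (fun _ => 1) 1 s f k

/-- HODGE DECOMPOSITION IN COORDINATES. From `S_Sg`, `S_cKap`, `S_cPv`. PROOF. `2 sg 2 r 1 1 = r` (`S_Sg`),
`r = 2 dim T` (`N.dim`, `φ(2) = 1`), so `g = sg 2 r 1 1 = dim T`; for `i < r`: `2 i + (r + 1) < 2 r` iff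
`i < g`. `N.dif` (`u = 1`) gives complex linear forms `B_i`, `i < g`, with
`B_i(γ.ω x y) = x^i y / ∏ (x - s_j)`; `N.Z = -1` (`N.cyc`, `Polynomial.cyclotomic_two`), so
`B (N.Z w) = exp(2πi/2)^1 B w`. For `f` of degree `< g` let `a = ∑ f_i B_i`: the hypothesis on `v` (with
`u = 1`) gives `a(v_k) = Pc 2 1 1 s f k`. The `B_i` are linearly independent (`∑ f_i B_i = 0` gives `Pc f = 0`,
`kap ≠ 0`, `Nj`: `f = 0`), so a basis of the space of complex linear forms on `T.V`, and the forms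
of type `(1,0)` are the complex linear ones. -/
def S_hHod : Prop :=
  ∀ (T : AV) (r : ℕ) (s : Fin (r + 1) → ℂ), Inc s → IsCov 2 s (fun _ => 1) →
    Nj (mu 2 (fun _ => 1) 1) s → ∀ (N : New T 2 s fun _ => 1) (v : Fin r → T.V),
    (∀ u < 2, u.Coprime 2 → ∀ (f : Polynomial ℂ)
      (B : T.V →ₗ[ℂ] ℂ), (∀ w, B (N.Z w) = Complex.exp (2 * Real.pi * Complex.I / (2 : ℕ)) ^ u * B w) →
      (∀ x ∉ N.γ.S, ∀ y, N.γ.P (x, y) = 0 →
        B (N.γ.ω x y) = f.eval x * y ^ u / ∏ j, (x - s j) ^ (1 + u * 1 / 2)) →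
      ∀ k, B (v k) = Pc 2 (fun _ => 1) u s f k) → Hds T r s v

/-- A `ℚ`-BASIS OF THE LATTICE. PROOF. If `∑ n_k v_k = 0` with integers `n_k` then `∑ n_k B(v_k) = 0`,
`n = 0` (`AInd`). `T.L` has rank `2 dim T = r` and spans `T.V` over `ℝ` (`IsZLattice`), so for `w ∈ T.L` there is
`N ≠ 0` with `N w` an integral combination of the `v_k`. First part: then `a = 0` on `T.L`. Second part:
`RatEnd`: a multiple of `X` maps `T.L` to `T.L`; the `v_k` are finitely many. Third part: the `v_k` span `T.V` over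
`ℝ` and their number is `dim_ℝ T.V`. -/
def S_hEB : Prop :=
  ∀ (T : AV) (r : ℕ), 2 * finrank ℂ T.V = r → ∀ (v : Fin r → T.V), (∀ k, v k ∈ T.L) →
    ∀ B : Frm T, AInd (fun k => B (v k)) →
    (∀ a : Frm T, (∀ k, a (v k) = 0) → a = 0) ∧
    (∀ X : Module.End ℝ T.V, RatEnd T X →
      ∃ (N : ℤ) (x : Fin r → Fin r → ℤ), N ≠ 0 ∧ ∀ k, N • X (v k) = ∑ j, x k j • v j) ∧
    LinearIndependent ℝ v ∧ Submodule.span ℝ (Set.range v) = ⊤

/-- `h` is a rational Lie algebra of endomorphisms skew for `E`, its real span contains the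
multiplication by `i`. -/
structure HLieS {T : AV} (E : T.V →ₗ[ℝ] T.V →ₗ[ℝ] ℝ) (h : Set (Module.End ℝ T.V)) : Prop where
  rat : ∀ X ∈ h, RatEnd T X
  skw : ∀ X ∈ h, ∀ u v, E (X u) v + E u (X v) = 0
  lie : IsQLie h
  J : mulI T ∈ Submodule.span ℝ h

/-- THE HODGE LIE ALGEBRA IS `sp`: the commutators of every `HLieS` span `sp(E)`. -/
def SpB {T : AV} (E : T.V →ₗ[ℝ] T.V →ₗ[ℝ] ℝ) : Prop :=
  ∀ h : Set (Module.End ℝ T.V), HLieS E h → ∀ X : Module.End ℝ T.V,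
    (∀ u v, E (X u) v + E u (X v) = 0) → X ∈ Submodule.span ℝ (Com h)

/-- TRANSFER. From `S_Sg`, `S_cKap`, `S_cPv`. PROOF. FIRST PART (`NDc`): let `P f + star (P g) = 0`, `P = Pc 2 1 1 s`,
`a`, `a'` the forms of type `(1,0)` of `f`, `g` (`Hds`). `a + conj a'` vanishes at the `v_k`, so it is `0`
(`S_hEB`); `a` is complex linear, `conj a'` antilinear, so both are `0`, `P f = 0 = P g`, and `Nj`, `kap ≠ 0` give
`f = g = 0`. SECOND PART. `Φ : Frm T → ℂ^r`, `a ↦ (a (v_k))_k`, is bijective. For `X` a real endomorphism of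
`T.V` let `X̂ = Φ ∘ pre X ∘ Φ⁻¹`; if `X v_k = ∑ x_(kj) v_j` then `(X̂ w)_k = ∑_j x_(kj) w_j`. So `X ↦ X̂` is real linear,
an injective antihomomorphism, `X̂` has rational entries if `X` is rational, and `J = (mulI)^` satisfies
`IsJc 2 1 1 s J` (`Hds` and its conjugate; `2 - 1 = 1`). The matrix `E_(kl) = E(v_k, v_l)` is invertible (`E` is
nondegenerate) and alternating, let `F` be its inverse and `ω(w, w') = ∑ w_k F_(kl) w'_l`: a symplectic form on `ℂ^r`;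
`X` is skew for `E` iff `x E + E xᵀ = 0` iff `xᵀ F + F x = 0` iff `X̂` is skew for `ω`. Let `h` be as in `SpB` and
`g` the complex span of the `X̂`, `X ∈ h`: spanned by finitely many matrices with rational entries
(finite dimension), closed under commutators, skew for `ω`, contains `J`. It is not bad, so every
`Ŷ`, `Y` skew for `E`, is a complex combination of commutators of elements of `g`, so of
commutators `(Y_i)^` with `Y_i ∈ Com h`; the entries of `Ŷ` and `(Y_i)^` are real: take the real parts of the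
coefficients: `Y = ∑ c_i Y_i`, `c_i` real. -/
def S_hTr : Prop :=
  ∀ (T : AV) (r : ℕ) (s : Fin (r + 1) → ℂ), Inc s → IsCov 2 s (fun _ => 1) →
    Nj (mu 2 (fun _ => 1) 1) s → ∀ v : Fin r → T.V, (∀ k, v k ∈ T.L) →
    (∀ a : Frm T, (∀ k, a (v k) = 0) → a = 0) →
    (∀ X : Module.End ℝ T.V, RatEnd T X →
      ∃ (N : ℤ) (x : Fin r → Fin r → ℤ), N ≠ 0 ∧ ∀ k, N • X (v k) = ∑ j, x k j • v j) →
    LinearIndependent ℝ v → Submodule.span ℝ (Set.range v) = ⊤ → Hds T r s v →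
    NDc 2 (fun _ => 1) 1 s ∧
      ((¬ ∃ g, Bads g ∧ ∃ J ∈ g, IsJc 2 (fun _ => 1) 1 s J) →
        ∀ E : T.V →ₗ[ℝ] T.V →ₗ[ℝ] ℝ, (∀ u v, E u v = -E v u) →
          (∀ v, v ≠ 0 → 0 < E (Complex.I • v) v) → SpB E)

end SEH
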