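import Pool.Agent.Lib.SE.Hyp.Spec2
import Pool.Agent.Lib.SE.Big.cHod

/-!
# PROJECT SE-S, module hHod: the Hodge decomposition in coordinates, hyperelliptic Jacobian (helper95)
-/

set_option autoImplicit false

open Module

noncomputable section

namespace SEH

open HC HC.E HC.SE SEB

namespace hHod_aux

lemma exp_half : Complex.exp (2 * Real.pi * Complex.I / (2 : ℕ)) = -1 := by
  have h : (2 * Real.pi * Complex.I / (2 : ℕ) : ℂ) = Real.pi * Complex.I := by
    push_cast
    ring
  rw [h, Complex.exp_pi_mul_I]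

/-- `Z` is `-1`. -/
lemma Z_eq {T : AV} {r : ℕ} {s : Fin (r + 1) → ℂ} {b : Fin (r + 1) → ℕ} (N : New T 2 s b)
    (w : T.V) : N.Z w = -w := by
  have h := N.cyc
  rw [Polynomial.cyclotomic_two] at h
  have h1 := LinearMap.congr_fun h w
  simp only [map_add, Polynomial.aeval_X, map_one, LinearMap.add_apply, Module.End.one_apply,
    LinearMap.zero_apply] at h1
  exact eq_neg_of_add_eq_zero_left h1

end hHod_aux

open hHod_aux SEB.cHod_aux in
/-- HODGE DECOMPOSITION IN COORDINATES. -/
theorem thHod : S_Sg → S_cKap → S_cPv → S_hHod := by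
  intro hSg hKap _ T r s hs hc hN N v hv
  have hul : (1 : ℕ) < 2 := by norm_num
  have huc : (1 : ℕ).Coprime 2 := by norm_num
  set q := sg 2 r (fun _ => 1) 1 with hq
  have hqq : q + q = r := hSg 2 r s (fun _ => 1) hc 1 hul huc
  have hdim : finrank ℂ T.V = q := by
    have h := N.dim
    rw [Nat.totient_two] at h
    omega
  have hB : ∀ i : Fin q, ∃ B : T.V →ₗ[ℂ] ℂ, ∀ x ∉ N.γ.S, ∀ y, N.γ.P (x, y) = 0 →
      B (N.γ.ω x y) = x ^ (i : ℕ) * y ^ 1 / ∏ j, (x - s j) ^ (1 + 1 * 1 / 2) := fun i =>
    N.dif 1 hul huc i (lt_sg 2 r (fun _ => 1) 1 i i.2)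
  choose B hB using hB
  -- the form of a polynomial
  let Bg : (Fin q → ℂ) → (T.V →ₗ[ℂ] ℂ) := fun g => ∑ i, g i • B i
  have hBg : ∀ (g : Fin q → ℂ) (w : T.V), Bg g w = ∑ i, g i * B i w := by
    intro g w
    simp only [Bg, LinearMap.sum_apply, LinearMap.smul_apply, smul_eq_mul]
  have hBZ : ∀ (g : Fin q → ℂ) (w : T.V), Bg g (N.Z w) =
      Complex.exp (2 * Real.pi * Complex.I / (2 : ℕ)) ^ 1 * Bg g w := by
    intro g w
    rw [exp_half, Z_eq, map_neg]
    ring
  have hBv : ∀ (g : Fin q → ℂ) (k : Fin r), Bg g (v k) = Pc 2 (fun _ => 1) 1 s (pol g) k := by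
    intro g k
    refine hv 1 hul huc (pol g) (Bg g) (hBZ g) ?_ k
    intro x hx y hy
    rw [hBg, pol_eval, Finset.sum_mul, Finset.sum_div]
    refine Finset.sum_congr rfl fun i _ => ?_
    rw [hB i x hx y hy]
    ring
  let F : (Fin q → ℂ) →ₗ[ℂ] (T.V →ₗ[ℂ] ℂ) :=
    { toFun := Bg
      map_add' := fun g g' => by
        refine LinearMap.ext fun w => ?_
        rw [LinearMap.add_apply, hBg, hBg, hBg, ← Finset.sum_add_distrib]
        exact Finset.sum_congr rfl fun i _ => by rw [Pi.add_apply, add_mul]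
      map_smul' := fun c g => by
        refine LinearMap.ext fun w => ?_
        rw [LinearMap.smul_apply, hBg, hBg, RingHom.id_apply, smul_eq_mul, Finset.mul_sum]
        exact Finset.sum_congr rfl fun i _ => by rw [Pi.smul_apply, smul_eq_mul, mul_assoc] }
  have hF : ∀ (g : Fin q → ℂ) (w : T.V), F g w = Bg g w := fun _ _ => rfl
  have hadm : Admc 2 (fun _ => 1) 1 s := ⟨hs, hc, hul, huc⟩
  have hqr : q ≤ r := by omega
  have hinj : Function.Injective F := by
    rw [injective_iff_map_eq_zero]
    intro g hg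
    have h1 : Pc 2 (fun _ => 1) 1 s (pol g) = 0 := by
      funext k
      rw [← hBv, ← hF, hg]
      rfl
    have h2 : pol g = 0 := by
      refine hN (pol g) (lt_of_lt_of_le (pol_degree g) (by exact_mod_cast hqr)) fun k => ?_
      have h3 : kap 2 (fun _ => 1) 1 k * Ic (mu 2 (fun _ => 1) 1) s k
          (fun x => (pol g).eval x) = 0 := congrFun h1 k
      exact (mul_eq_zero.1 h3).resolve_left ((hKap 2 r _ 1 s hadm).2.2.2 k).1
    funext i
    rw [← pol_coeff g i, h2, Polynomial.coeff_zero]
    rfl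
  have hfin : finrank ℂ (Fin q → ℂ) = finrank ℂ (T.V →ₗ[ℂ] ℂ) := by
    rw [Module.finrank_fintype_fun_eq_card, Fintype.card_fin, ← hdim]
    exact (Subspace.dual_finrank_eq (K := ℂ) (V := T.V)).symm
  have hsurj : Function.Surjective F :=
    (LinearMap.injective_iff_surjective_of_finrank_eq_finrank hfin).1 hinj
  constructor
  · intro f hf
    refine ⟨(F fun i => f.coeff (i : ℕ)).restrictScalars ℝ, fun w => ?_, fun k => ?_⟩
    · rw [LinearMap.restrictScalars_apply, LinearMap.restrictScalars_apply, map_smul, smul_eq_mul]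
    · rw [LinearMap.restrictScalars_apply, hF, hBv, pol_of q f hf]
  · intro a ha
    let A : T.V →ₗ[ℂ] ℂ :=
      { toFun := fun w => a w
        map_add' := fun w w' => map_add a w w'
        map_smul' := fun c w => by
          have h1 : c • w = c.re • w + c.im • (Complex.I • w) := by
            conv_lhs => rw [← Complex.re_add_im c]
            rw [add_smul, mul_smul, Complex.coe_smul, Complex.coe_smul]
          rw [h1, map_add, map_smul, map_smul, ha w, RingHom.id_apply, smul_eq_mul,
            Complex.real_smul, Complex.real_smul]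
          conv_rhs => rw [← Complex.re_add_im c]
          ring }
    obtain ⟨g, hg⟩ := hsurj A
    refine ⟨pol g, pol_degree g, fun k => ?_⟩
    rw [← hBv, ← hF, hg]
    rfl

end SEH
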